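import Pool.Agent.Helper3.OP.DC

/-! Codes of the induced ordered 3-graphs on four and five vertices. -/

set_option autoImplicit false
open Finset

namespace Pool.Agent.Helper3.OP

variable {V : Type} [Fintype V] [LinearOrder V] (H : Finset (Finset V))

/-- one if the triple is an edge, and zero otherwise -/
def e (a b c : V) : ℕ := if ({a, b, c} : Finset V) ∈ H then 1 else 0

theorem e_le (a b c : V) : e H a b c ≤ 1 := by unfold e; split_ifs <;> norm_num

def c4 (b0 b1 b2 b3 : ℕ) : ℕ :=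
  Nat.add b0 (Nat.mul 2 (Nat.add b1 (Nat.mul 2 (Nat.add b2 (Nat.mul 2 b3)))))

def c10 (b0 b1 b2 b3 b4 b5 b6 b7 b8 b9 : ℕ) : ℕ :=
  Nat.add b0 (Nat.mul 2 (Nat.add b1 (Nat.mul 2 (Nat.add b2 (Nat.mul 2 (Nat.add b3 (Nat.mul 2
    (Nat.add b4 (Nat.mul 2 (Nat.add b5 (Nat.mul 2 (Nat.add b6 (Nat.mul 2 (Nat.add b7 (Nat.mul 2
      (Nat.add b8 (Nat.mul 2 b9)))))))))))))))))

/-- the code of the 3-graph on four vertices in increasing order -/
def cod4 (κ : Fin 4 → V) : ℕ :=
  c4 (e H (κ 0) (κ 1) (κ 2)) (e H (κ 0) (κ 1) (κ 3)) (e H (κ 0) (κ 2) (κ 3)) (e H (κ 1) (κ 2) (κ 3))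

/-- the code of the 3-graph on five vertices in increasing order -/
def cod5 (κ : Fin 5 → V) : ℕ :=
  c10 (e H (κ 0) (κ 1) (κ 2)) (e H (κ 0) (κ 1) (κ 3)) (e H (κ 0) (κ 2) (κ 3)) (e H (κ 1) (κ 2) (κ 3))
    (e H (κ 0) (κ 1) (κ 4)) (e H (κ 0) (κ 2) (κ 4)) (e H (κ 1) (κ 2) (κ 4)) (e H (κ 0) (κ 3) (κ 4))
    (e H (κ 1) (κ 3) (κ 4)) (e H (κ 2) (κ 3) (κ 4))

def C4 (T : Finset V) : ℕ := if h : T.card = 4 then cod4 H (T.orderEmbOfFin h) else 0
def C5 (R : Finset V) : ℕ := if h : R.card = 5 then cod5 H (R.orderEmbOfFin h) else 0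

/-- the number of smaller elements -/
def pos (T : Finset V) (x : V) : ℕ := (T.filter (· < x)).card

variable {H}

/-- the range of an order embedding -/
def img {k : ℕ} (κ : Fin k ↪o V) : Finset V := univ.map κ.toEmbedding

theorem card_img {k : ℕ} (κ : Fin k ↪o V) : (img κ).card = k := by simp [img]

theorem mem_img {k : ℕ} (κ : Fin k ↪o V) (i : Fin k) : κ i ∈ img κ := by simp [img]

theorem exists_img {k : ℕ} {S : Finset V} (h : S.card = k) : ∃ κ : Fin k ↪o V, S = img κ := by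
  refine ⟨S.orderEmbOfFin h, ?_⟩
  unfold img
  ext x
  have := Finset.range_orderEmbOfFin S h
  simp only [mem_map, mem_univ, true_and]
  constructor
  · intro hx
    have h2 : x ∈ Set.range (S.orderEmbOfFin h) := by rw [this]; exact hx
    exact h2
  · intro hx
    have h2 : x ∈ Set.range (S.orderEmbOfFin h) := hx
    rw [this] at h2
    exact h2

theorem orderEmb_img {k : ℕ} (κ : Fin k ↪o V) (h : (img κ).card = k) :
    (img κ).orderEmbOfFin h = κ := by
  symm
  apply Finset.orderEmbOfFin_unique'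
  intro i
  exact mem_img κ i

theorem C4_img (κ : Fin 4 ↪o V) : C4 H (img κ) = cod4 H κ := by
  unfold C4
  rw [dif_pos (card_img κ), orderEmb_img]

theorem C5_img (κ : Fin 5 ↪o V) : C5 H (img κ) = cod5 H κ := by
  unfold C5
  rw [dif_pos (card_img κ), orderEmb_img]

/-- skip one index -/
def sk {k : ℕ} (j : Fin (k + 1)) (κ : Fin (k + 1) ↪o V) : Fin k ↪o V :=
  (Fin.succAboveOrderEmb j).trans κ

theorem sk_apply {k : ℕ} (j : Fin (k + 1)) (κ : Fin (k + 1) ↪o V) (i : Fin k) :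
    sk j κ i = κ (j.succAbove i) := rfl

theorem erase_img {k : ℕ} (κ : Fin (k + 1) ↪o V) (j : Fin (k + 1)) :
    (img κ).erase (κ j) = img (sk j κ) := by
  ext x
  simp only [img, mem_erase, mem_map, mem_univ, true_and]
  constructor
  · rintro ⟨h1, i, rfl⟩
    have hij : i ≠ j := fun h => h1 (by rw [h]; rfl)
    obtain ⟨i', rfl⟩ := Fin.exists_succAbove_eq hij
    exact ⟨i', rfl⟩
  · rintro ⟨i', rfl⟩
    refine ⟨?_, j.succAbove i', rfl⟩
    intro h
    have h2 : κ (j.succAbove i') = κ j := h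
    exact Fin.succAbove_ne j i' (κ.injective h2)

theorem pos_img {k : ℕ} (κ : Fin (k + 1) ↪o V) (p : Fin (k + 1)) :
    pos ((img κ).erase (κ p)) (κ p) = p := by
  unfold pos
  have h : ((img κ).erase (κ p)).filter (· < κ p) = (Iio p).map κ.toEmbedding := by
    ext x
    simp only [img, mem_filter, mem_erase, mem_map, mem_univ, true_and, mem_Iio]
    constructor
    · rintro ⟨⟨h1, i, rfl⟩, h2⟩
      have h3 : κ i < κ p := h2
      exact ⟨i, κ.lt_iff_lt.1 h3, rfl⟩
    · rintro ⟨i, hi, rfl⟩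
      have h3 : κ i < κ p := κ.lt_iff_lt.2 hi
      exact ⟨⟨ne_of_lt h3, i, rfl⟩, h3⟩
  rw [h, card_map, Fin.card_Iio]

/-- the value at four plus two vertices -/
def Qt (H : Finset (Finset V)) (ix : ℕ → ℕ → ℕ) (q : ℕ → ℕ → ℕ → ℤ) (T : Finset V) (x y : V) : ℤ :=
  q (C4 H T) (ix (pos T x) (C5 H (insert x T))) (ix (pos T y) (C5 H (insert y T)))

theorem Qt_img (ix : ℕ → ℕ → ℕ) (q : ℕ → ℕ → ℕ → ℤ) (ι : Fin 6 ↪o V) (i j : Fin 6) (p p' : Fin 5)
    (hi : j.succAbove p = i) (hj : i.succAbove p' = j) :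
    Qt H ix q (((img ι).erase (ι i)).erase (ι j)) (ι i) (ι j) =
      q (cod4 H (sk p (sk j ι))) (ix p (cod5 H (sk j ι))) (ix p' (cod5 H (sk i ι))) := by
  have hne : ι i ≠ ι j := fun h => by
    have h2 := ι.injective h
    subst h2
    exact Fin.succAbove_ne _ _ hi
  have e1 : insert (ι i) (((img ι).erase (ι i)).erase (ι j)) = img (sk j ι) := by
    rw [erase_right_comm, erase_img ι j, insert_erase]
    rw [← erase_img ι j]
    exact mem_erase.2 ⟨hne, mem_img ι i⟩
  have e2 : insert (ι j) (((img ι).erase (ι i)).erase (ι j)) = img (sk i ι) := by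
    rw [insert_erase, erase_img ι i]
    exact mem_erase.2 ⟨hne.symm, mem_img ι j⟩
  have e3 : ((img ι).erase (ι i)).erase (ι j) = (img (sk j ι)).erase (sk j ι p) := by
    rw [erase_right_comm, erase_img ι j, sk_apply, hi]
  have e4 : ((img ι).erase (ι i)).erase (ι j) = (img (sk i ι)).erase (sk i ι p') := by
    rw [erase_img ι i, sk_apply, hj]
  have f1 : pos (((img ι).erase (ι i)).erase (ι j)) (ι i) = p := by
    have := pos_img (sk j ι) p
    rw [← e3, sk_apply, hi] at this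
    exact this
  have f2 : pos (((img ι).erase (ι i)).erase (ι j)) (ι j) = p' := by
    have := pos_img (sk i ι) p'
    rw [← e4, sk_apply, hj] at this
    exact this
  unfold Qt
  rw [e1, e2, f1, f2, C5_img, C5_img, e3, erase_img, C4_img]

theorem sum_img {k : ℕ} (κ : Fin k ↪o V) (f : V → ℤ) : ∑ x ∈ img κ, f x = ∑ i, f (κ i) := by
  unfold img
  rw [sum_map]
  rfl

theorem sum_img_erase (κ : Fin 6 ↪o V) (i : Fin 6) (f : V → ℤ) :
    ∑ x ∈ (img κ).erase (κ i), f x = ∑ p : Fin 5, f (κ (i.succAbove p)) := by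
  rw [erase_img, sum_img]
  rfl

end Pool.Agent.Helper3.OP
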