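import Pool.Agent.Helper3.OP.Ker

/-! Checks by the kernel, with a multiplier. -/

set_option autoImplicit false
open Finset

namespace Pool.Agent.Helper3.OP

/-- a multiple of the entry of a symmetric table of integers -/
def qm (m w T O i j : ℕ) : ℤ := Int.mul (Int.ofNat m) (Int.subNatNat (look w T i j) O)

theorem qm_eq (m w T O i j : ℕ) : qm m w T O i j = (m : ℤ) * qz w T O i j := by
  unfold qm qz
  rw [Int.subNatNat_eq_coe]
  rfl

theorem qm_comm (m w T O i j : ℕ) : qm m w T O i j = qm m w T O j i := by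
  rw [qm_eq, qm_eq, qz_comm]

theorem psd_chkm {V : Type} (n r d m w T O : ℕ) (hd : 0 < d) (hm : 0 < m)
    (Rs : List (List (ℕ × ℤ))) (Ws : List (List ℤ)) (hr : Ws.length = r)
    (h1 : chkR n r d Rs (qm m w T O) = true) (h2 : chkW (qm m w T O) Ws 0 Ws = true)
    (s : Finset V) (I : V → ℕ) (hI : ∀ x ∈ s, I x < n) :
    0 ≤ ∑ x ∈ s, ∑ y ∈ s, qz w T O (I x) (I y) := by
  have h := psd_chk n r d hd (qm m w T O) (qm_comm m w T O) Rs Ws hr h1 h2 s I hI
  simp only [qm_eq, ← mul_sum] at h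
  exact nonneg_of_mul_nonneg_right h (by exact_mod_cast hm)

end Pool.Agent.Helper3.OP
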