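import Pool.Agent.Helper3.OP.Ker2

/-! Checks by the kernel, with packed columns. -/

set_option autoImplicit false
open Finset

namespace Pool.Agent.Helper3.OP

theorem fld_eq (w T i : ℕ) : fld w T i = T / (2 ^ w) ^ i % 2 ^ w := by
  unfold fld
  have h : Nat.sub (Nat.shiftLeft 1 w) 1 = 2 ^ w - 1 := by
    show (1 <<< w) - 1 = _
    rw [Nat.shiftLeft_eq, one_mul]
  rw [h]
  show (T >>> (w * i)) &&& (2 ^ w - 1) = _
  rw [Nat.and_two_pow_sub_one_eq_mod, Nat.shiftRight_eq_div_pow, pow_mul]

theorem div_step (w C b : ℕ) : C / (2 ^ w) ^ b = fld w C b + 2 ^ w * (C / (2 ^ w) ^ (b + 1)) := by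
  rw [fld_eq, pow_succ, ← Nat.div_div_eq_div_mul, Nat.mod_add_div]

/-- a linear combination of packed columns -/
def lin (w a : ℕ) : List ℕ → ℕ
  | [] => 0
  | C :: l => Nat.add (Nat.mul (fld w C a) C) (lin w a l)

/-- the product of two rows -/
def dn (w a b : ℕ) : List ℕ → ℕ
  | [] => 0
  | C :: l => fld w C a * fld w C b + dn w a b l

/-- the sum of a row -/
def sm (w a : ℕ) : List ℕ → ℕ
  | [] => 0
  | C :: l => Nat.add (fld w C a) (sm w a l)

/-- high part -/
def hi (w a b : ℕ) : List ℕ → ℕ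
  | [] => 0
  | C :: l => fld w C a * (C / (2 ^ w) ^ b) + hi w a b l

theorem hi_zero (w a : ℕ) (l : List ℕ) : hi w a 0 l = lin w a l := by
  induction l with
  | nil => rfl
  | cons C l ih =>
    show fld w C a * (C / (2 ^ w) ^ 0) + hi w a 0 l = fld w C a * C + lin w a l
    rw [ih, pow_zero, Nat.div_one]

theorem hi_step (w a b : ℕ) (l : List ℕ) : hi w a b l = dn w a b l + 2 ^ w * hi w a (b + 1) l := by
  induction l with
  | nil => simp [hi, dn]
  | cons C l ih =>
    show fld w C a * (C / (2 ^ w) ^ b) + hi w a b l =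
      fld w C a * fld w C b + dn w a b l + 2 ^ w * (fld w C a * (C / (2 ^ w) ^ (b + 1)) + hi w a (b + 1) l)
    rw [ih, div_step w C b]
    ring

theorem lin_div (w a : ℕ) (l : List ℕ) : ∀ b : ℕ, (∀ i < b, dn w a i l < 2 ^ w) →
    lin w a l / (2 ^ w) ^ b = hi w a b l := by
  intro b
  induction b with
  | zero => intro _; rw [pow_zero, Nat.div_one, hi_zero]
  | succ b ih =>
    intro h
    rw [pow_succ, ← Nat.div_div_eq_div_mul, ih fun i hi => h i (by omega), hi_step w a b l,
      Nat.add_mul_div_left _ _ (by positivity), Nat.div_eq_of_lt (h b (by omega)), zero_add]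

theorem fld_lin (w a : ℕ) (l : List ℕ) (b : ℕ) (h : ∀ i ≤ b, dn w a i l < 2 ^ w) :
    fld w (lin w a l) b = dn w a b l := by
  rw [fld_eq, lin_div w a l b fun i hi => h i hi.le, hi_step w a b l, Nat.add_mul_mod_self_left,
    Nat.mod_eq_of_lt (h b le_rfl)]

theorem dn_le (w a b : ℕ) (M : ℕ) : ∀ l : List ℕ, (∀ C ∈ l, fld w C a ≤ M ∧ fld w C b ≤ M) →
    dn w a b l ≤ l.length * (M * M) := by
  intro l
  induction l with
  | nil => intro _; simp [dn]
  | cons C l ih =>
    intro h
    have h1 := h C (by simp)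
    have h2 := ih fun C hC => h C (by simp [hC])
    show fld w C a * fld w C b + dn w a b l ≤ _
    have h3 := Nat.mul_le_mul h1.1 h1.2
    rw [List.length_cons]
    nlinarith

theorem dot_map (f g : ℕ → ℤ) (l : List ℕ) :
    dot (l.map f) (l.map g) = (l.map fun c => f c * g c).sum := by
  induction l with
  | nil => rfl
  | cons c l ih =>
    simp only [List.map_cons, List.sum_cons, dot, ih]

theorem dot_dn (w o a b : ℕ) (l : List ℕ) :
    dot (l.map fun C => (fld w C a : ℤ) - o) (l.map fun C => (fld w C b : ℤ) - o) =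
      (dn w a b l : ℤ) - o * (sm w a l + sm w b l : ℕ) + l.length * ((o : ℤ) * o) := by
  rw [dot_map]
  induction l with
  | nil => simp [dn, sm]
  | cons C l ih =>
    rw [List.map_cons, List.sum_cons, ih]
    have e1 : sm w a (C :: l) = fld w C a + sm w a l := rfl
    have e2 : sm w b (C :: l) = fld w C b + sm w b l := rfl
    have e3 : dn w a b (C :: l) = fld w C a * fld w C b + dn w a b l := rfl
    rw [e1, e2, e3, List.length_cons]
    push_cast
    ring

theorem cand {a b : Bool} (h : cond a b false = true) : a = true ∧ b = true := by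
  cases a
  · exact Bool.noConfusion h
  · exact ⟨rfl, h⟩

/-- evaluation first -/
def force (n : ℕ) (f : ℕ → Bool) : Bool := Nat.rec (f 0) (fun k _ => f (Nat.succ k)) n

theorem force_eq (n : ℕ) (f : ℕ → Bool) : force n f = f n := by
  cases n <;> rfl

def adiff (x y : ℕ) : ℕ := Nat.add (Nat.sub x y) (Nat.sub y x)

theorem adiff_eq (x y : ℕ) : (adiff x y : ℤ) = |(x : ℤ) - y| := by
  unfold adiff
  show (((x - y) + (y - x) : ℕ) : ℤ) = _
  rcases le_total x y with h | h
  · rw [Nat.sub_eq_zero_of_le h, zero_add, abs_of_nonpos (by simpa using h)]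
    push_cast [h]; ring
  · rw [Nat.sub_eq_zero_of_le h, add_zero, abs_of_nonneg (by simpa using h)]
    push_cast [h]; ring

/-- sum of the first values -/
def rs (f : ℕ → ℕ) : ℕ → ℕ
  | 0 => 0
  | n + 1 => Nat.add (f n) (rs f n)

theorem rs_eq (f : ℕ → ℕ) (n : ℕ) : rs f n = ∑ i ∈ range n, f i := by
  induction n with
  | zero => rfl
  | succ n ih =>
    have e : rs f (n + 1) = f n + rs f n := rfl
    rw [e, ih, sum_range_succ, add_comm]

/-- one row: `B` is the packed row of products -/
def rowc (m T r w o c SP : ℕ) (a B : ℕ) : Bool :=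
  Nat.ble (rs (fun b => adiff (Nat.add (Nat.mul m (look 48 T a b)) (Nat.mul o (Nat.add (fld w SP a) (fld w SP b))))
    (Nat.add (fld w B b) c)) r)
    (Nat.mul 2 (Nat.sub (Nat.add (Nat.mul m (look 48 T a a)) (Nat.mul o (Nat.add (fld w SP a) (fld w SP a))))
    (Nat.add (fld w B a) c)))

/-- digits are small -/
def small (M : ℕ) (w r : ℕ) (C : ℕ) : Bool := allb r fun i => Nat.ble (fld w C i) M

def chkK (m T OFF r w o M SP : ℕ) (Cs : List ℕ) : Bool :=
  cond (Nat.ble (Nat.succ (Nat.mul Cs.length (Nat.mul M M))) (Nat.shiftLeft 1 w))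
    (cond (Cs.all (small M w r))
      (cond (allb r fun a => Nat.beq (sm w a Cs) (fld w SP a))
        (allb r fun a => force (lin w a Cs) (rowc m T r w o
          (Nat.add (Nat.mul m OFF) (Nat.mul Cs.length (Nat.mul o o))) SP a)) false) false) false

theorem chkK_true {m T OFF r w o M SP : ℕ} {Cs : List ℕ} (h : chkK m T OFF r w o M SP Cs = true) :
    ∀ a < r, ∑ b ∈ (range r).erase a, |qm m 48 T OFF a b -
        dot (Cs.map fun C => (fld w C a : ℤ) - o) (Cs.map fun C => (fld w C b : ℤ) - o)| ≤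
      qm m 48 T OFF a a -
        dot (Cs.map fun C => (fld w C a : ℤ) - o) (Cs.map fun C => (fld w C a : ℤ) - o) := by
  unfold chkK at h
  obtain ⟨h1, h⟩ := cand h
  obtain ⟨h2, h⟩ := cand h
  obtain ⟨h3, h⟩ := cand h
  have hM : Cs.length * (M * M) < 2 ^ w := by
    have := Nat.le_of_ble_eq_true h1
    have e : Nat.shiftLeft 1 w = 2 ^ w := by show 1 <<< w = _; rw [Nat.shiftLeft_eq, one_mul]
    rw [e] at this
    exact this
  have hs : ∀ C ∈ Cs, ∀ i < r, fld w C i ≤ M := by
    intro C hC i hi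
    have := List.all_eq_true.1 h2 C hC
    exact Nat.le_of_ble_eq_true (allb_true this hi)
  have hS : ∀ a < r, fld w SP a = sm w a Cs := fun a ha =>
    (Nat.eq_of_beq_eq_true (allb_true h3 ha)).symm
  intro a ha
  have h4 := allb_true h ha
  rw [force_eq] at h4
  have hd : ∀ b < r, fld w (lin w a Cs) b = dn w a b Cs := by
    intro b hb
    refine fld_lin w a Cs b fun i hi => lt_of_le_of_lt (dn_le w a i M Cs fun C hC =>
      ⟨hs C hC a ha, hs C hC i (by omega)⟩) hM
  have h5 := Nat.le_of_ble_eq_true h4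
  rw [rs_eq] at h5
  set c : ℕ := Nat.add (Nat.mul m OFF) (Nat.mul Cs.length (Nat.mul o o)) with hc
  have hc' : (c : ℤ) = (m : ℤ) * OFF + Cs.length * ((o : ℤ) * o) := by
    rw [hc]; simp only [Nat.add_eq, Nat.mul_eq]; push_cast; ring
  -- the entries
  have key : ∀ b < r, qm m 48 T OFF a b -
        dot (Cs.map fun C => (fld w C a : ℤ) - o) (Cs.map fun C => (fld w C b : ℤ) - o) =
      ((Nat.add (Nat.mul m (look 48 T a b)) (Nat.mul o (Nat.add (fld w SP a) (fld w SP b))) : ℕ) : ℤ) -
        ((Nat.add (fld w (lin w a Cs) b) c : ℕ) : ℤ) := by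
    intro b hb
    rw [dot_dn, qm_eq, hd b hb, hS a ha, hS b hb]
    unfold qz
    simp only [Nat.add_eq, Nat.mul_eq]
    push_cast
    rw [hc']
    ring
  have e1 : ∑ b ∈ range r, |qm m 48 T OFF a b -
        dot (Cs.map fun C => (fld w C a : ℤ) - o) (Cs.map fun C => (fld w C b : ℤ) - o)| =
      ((∑ b ∈ range r, adiff (Nat.add (Nat.mul m (look 48 T a b)) (Nat.mul o (Nat.add (fld w SP a) (fld w SP b))))
    (Nat.add (fld w (lin w a Cs) b) c) : ℕ) : ℤ) := by
    push_cast
    refine sum_congr rfl fun b hb => ?_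
    rw [adiff_eq, key b (mem_range.1 hb)]
  have e2 := (add_sum_erase (range r) (fun b => |qm m 48 T OFF a b -
        dot (Cs.map fun C => (fld w C a : ℤ) - o) (Cs.map fun C => (fld w C b : ℤ) - o)|)
        (mem_range.2 ha)).symm
  rw [e1] at e2
  have h6 : ((∑ b ∈ range r, adiff (Nat.add (Nat.mul m (look 48 T a b)) (Nat.mul o (Nat.add (fld w SP a) (fld w SP b))))
    (Nat.add (fld w (lin w a Cs) b) c) : ℕ) : ℤ) ≤ ((Nat.mul 2 (Nat.sub (Nat.add (Nat.mul m (look 48 T a a)) (Nat.mul o (Nat.add (fld w SP a) (fld w SP a))))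
    (Nat.add (fld w (lin w a Cs) a) c)) : ℕ) : ℤ) := by exact_mod_cast h5
  rw [e2] at h6
  have h7 : (0 : ℤ) ≤ ∑ b ∈ (range r).erase a, |qm m 48 T OFF a b -
        dot (Cs.map fun C => (fld w C a : ℤ) - o) (Cs.map fun C => (fld w C b : ℤ) - o)| :=
    sum_nonneg fun _ _ => abs_nonneg _
  have key2 := key a ha
  set E := qm m 48 T OFF a a -
        dot (Cs.map fun C => (fld w C a : ℤ) - o) (Cs.map fun C => (fld w C a : ℤ) - o) with hE
  set x := Nat.add (Nat.mul m (look 48 T a a)) (Nat.mul o (Nat.add (fld w SP a) (fld w SP a))) with hx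
  set y := Nat.add (fld w (lin w a Cs) a) c with hy
  rcases le_total y x with hxy | hxy
  · have e3 : ((Nat.mul 2 (Nat.sub x y) : ℕ) : ℤ) = 2 * E := by
      show ((2 * (x - y) : ℕ) : ℤ) = _
      rw [key2]
      push_cast [hxy]
      ring
    rw [e3] at h6
    have h8 : 0 ≤ E := by rw [key2]; have : (y : ℤ) ≤ x := by exact_mod_cast hxy
                          linarith
    rw [abs_of_nonneg h8] at h6
    linarith
  · have e3 : ((Nat.mul 2 (Nat.sub x y) : ℕ) : ℤ) = 0 := by
      show ((2 * (x - y) : ℕ) : ℤ) = _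
      rw [Nat.sub_eq_zero_of_le hxy]
      simp
    rw [e3] at h6
    have h8 : E ≤ 0 := by rw [key2]; have : (x : ℤ) ≤ y := by exact_mod_cast hxy
                          linarith
    rw [abs_of_nonpos h8] at h6
    linarith

theorem psd_gen {V : Type} (n r d : ℕ) (hd : 0 < d) (q : ℕ → ℕ → ℤ) (hq : ∀ i j, q i j = q j i)
    (Rs : List (List (ℕ × ℤ))) (W : ℕ → List ℤ)
    (h1 : chkR n r d Rs q = true)
    (h2 : ∀ a < r, ∑ b ∈ (range r).erase a, |q a b - dot (W a) (W b)| ≤ q a a - dot (W a) (W a))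
    (s : Finset V) (I : V → ℕ) (hI : ∀ x ∈ s, I x < n) :
    0 ≤ ∑ x ∈ s, ∑ y ∈ s, q (I x) (I y) := by
  have key : ∀ i < n, r ≤ i → (∀ p ∈ Rf r d Rs i, p.1 < r) ∧ ∀ j ≤ i, (d : ℤ) ^ 2 * q i j =
      ev (Rf r d Rs i) fun a => ev (Rf r d Rs j) fun b => q a b := by
    intro i hi hri
    have h3 := imp_true (allb_true h1 hi) (Nat.ble_eq_true_of_le hri)
    cases h0 : ((Rf r d Rs i).all fun p => Nat.ble (Nat.succ p.1) r) with
    | false => rw [h0] at h3; exact Bool.noConfusion h3
    | true =>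
      rw [h0] at h3
      refine ⟨fun p hp => ?_, fun j hj => ?_⟩
      · have := List.all_eq_true.1 h0 p hp
        exact Nat.le_of_ble_eq_true this
      · have h4 : allb (i + 1) (fun j => decide ((d : ℤ) * (d : ℤ) * q i j =
          ev (Rf r d Rs i) fun a => ev (Rf r d Rs j) fun b => q a b)) = true := h3
        have := of_decide_eq_true (allb_true h4 (Nat.lt_succ_of_le hj))
        rw [← this]
        ring
  have small : ∀ i, i < r → Rf r d Rs i = [(i, (d : ℤ))] := by
    intro i hi
    unfold Rf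
    have : Nat.ble r i = false := by
      rw [Bool.eq_false_iff]; intro h; exact absurd (Nat.le_of_ble_eq_true h) (not_le.2 hi)
    rw [this]
    rfl
  have evc : ∀ (l m : List (ℕ × ℤ)), (ev l fun a => ev m fun b => q a b) =
      ev m fun a => ev l fun b => q a b := by
    intro l m
    unfold ev
    induction l with
    | nil =>
      simp
    | cons p l ih =>
      simp only [List.map_cons, List.sum_cons, ih, mul_add]
      rw [show (fun p_1 : ℕ × ℤ => p_1.2 * (p.2 * q p_1.1 p.1) +
        p_1.2 * (List.map (fun p => p.2 * q p_1.1 p.1) l).sum) =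
        fun p_1 : ℕ × ℤ => p_1.2 * (p.2 * q p_1.1 p.1) +
        p_1.2 * (List.map (fun p => p.2 * q p_1.1 p.1) l).sum from rfl]
      rw [List.sum_map_add]
      congr 1
      rw [← List.sum_map_mul_left]
      congr 1
      refine List.map_congr_left fun x _ => ?_
      rw [hq p.1 x.1]
      ring
  refine psd_of n r d hd q hq (Rf r d Rs) ?_ ?_ W h2 s I hI
  · intro i hi p hp
    rcases Nat.lt_or_ge i r with h | h
    · rw [small i h, List.mem_singleton] at hp
      rw [hp]
      exact h
    · exact (key i hi h).1 p hp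
  · intro i hi j hj
    rcases Nat.lt_or_ge i r with h | h
    · rcases Nat.lt_or_ge j r with h' | h'
      · rw [small i h, small j h']
        simp only [ev, List.map_cons, List.map_nil, List.sum_cons, List.sum_nil, add_zero]
        ring
      · rw [hq i j, evc]
        exact (key j hj h').2 i (by omega)
    · rcases Nat.le_total j i with h' | h'
      · exact (key i hi h).2 j h'
      · rw [hq i j, evc]
        exact (key j hj (h.trans h')).2 i h'

theorem psd_kro {V : Type} (n r d m T O w o M SP : ℕ) (hd : 0 < d) (hm : 0 < m)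
    (Rs : List (List (ℕ × ℤ))) (Cs : List ℕ)
    (h1 : chkR n r d Rs (qm m 48 T O) = true) (h2 : chkK m T O r w o M SP Cs = true)
    (s : Finset V) (I : V → ℕ) (hI : ∀ x ∈ s, I x < n) :
    0 ≤ ∑ x ∈ s, ∑ y ∈ s, qz 48 T O (I x) (I y) := by
  have h := psd_gen n r d hd (qm m 48 T O) (qm_comm m 48 T O) Rs
    (fun a => Cs.map fun C => (fld w C a : ℤ) - o) h1 (chkK_true h2) s I hI
  simp only [qm_eq, ← mul_sum] at h
  exact nonneg_of_mul_nonneg_right h (by exact_mod_cast hm)

end Pool.Agent.Helper3.OP
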