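import Pool.Agent.Helper3.OP.LowTwo

/-! The inequality for the number of edges. -/

set_option autoImplicit false
set_option linter.unusedVariables false
set_option maxHeartbeats 4000000
open Finset

namespace Pool.Agent.Helper3.OP

/-- the inequality for all admissible 3-graphs on six vertices -/
def Leaf (ok : ℕ → Bool) (κ c : ℤ) (ix : ℕ → ℕ → ℕ) (q : ℕ → ℕ → ℕ → ℤ) (ix2 : ℕ → ℕ → ℕ)
    (q2 : ℕ → ℕ → ℤ) : Prop :=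
  ∀ b012 b013 b023 b123 b014 b024 b124 b034 b134 b234 b015 b025 b125 b035 b135 b235 b045 b145 b245 b345 : ℕ, b012 ≤ 1 → b013 ≤ 1 → b023 ≤ 1 → b123 ≤ 1 → b014 ≤ 1 → b024 ≤ 1 → b124 ≤ 1 → b034 ≤ 1 → b134 ≤ 1 → b234 ≤ 1 → b015 ≤ 1 → b025 ≤ 1 → b125 ≤ 1 → b035 ≤ 1 → b135 ≤ 1 → b235 ≤ 1 → b045 ≤ 1 → b145 ≤ 1 → b245 ≤ 1 → b345 ≤ 1 →
    Ok6 (fun t => ok t = true) b012 b013 b023 b123 b014 b024 b124 b034 b134 b234 b015 b025 b125 b035 b135 b235 b045 b145 b245 b345 →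
    9 * κ * (edg b012 b013 b023 b123 b014 b024 b124 b034 b134 b234 b015 b025 b125 b035 b135 b235 b045 b145 b245 b345 : ℕ) + 2 * pairSum ix q b012 b013 b023 b123 b014 b024 b124 b034 b134 b234 b015 b025 b125 b035 b135 b235 b045 b145 b245 b345 + c * w5S b012 b013 b023 b123 b014 b024 b124 b034 b134 b234 b015 b025 b125 b035 b135 b235 b045 b145 b245 b345 + 2 * twoSum ix2 q2 b012 b013 b023 b123 b014 b024 b124 b034 b134 b234 b015 b025 b125 b035 b135 b235 b045 b145 b245 b345 ≤ 100 * κ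

variable {V : Type} [Fintype V] [LinearOrder V] {H : Finset (Finset V)}

theorem ok6_img {ok : ℕ → Bool} (hok : ∀ T ∈ P V 4, ok (C4 H T) = true) (ι : Fin 6 ↪o V) :
    Ok6 (fun t => ok t = true) (e H (ι 0) (ι 1) (ι 2)) (e H (ι 0) (ι 1) (ι 3)) (e H (ι 0) (ι 2) (ι 3)) (e H (ι 1) (ι 2) (ι 3)) (e H (ι 0) (ι 1) (ι 4)) (e H (ι 0) (ι 2) (ι 4)) (e H (ι 1) (ι 2) (ι 4)) (e H (ι 0) (ι 3) (ι 4)) (e H (ι 1) (ι 3) (ι 4)) (e H (ι 2) (ι 3) (ι 4)) (e H (ι 0) (ι 1) (ι 5)) (e H (ι 0) (ι 2) (ι 5)) (e H (ι 1) (ι 2) (ι 5)) (e H (ι 0) (ι 3) (ι 5)) (e H (ι 1) (ι 3) (ι 5)) (e H (ι 2) (ι 3) (ι 5)) (e H (ι 0) (ι 4) (ι 5)) (e H (ι 1) (ι 4) (ι 5)) (e H (ι 2) (ι 4) (ι 5)) (e H (ι 3) (ι 4) (ι 5)) :=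
  ⟨ok_sk hok (sk 4 (sk 5 ι)), ok_sk hok (sk 3 (sk 5 ι)), ok_sk hok (sk 2 (sk 5 ι)), ok_sk hok (sk 1 (sk 5 ι)), ok_sk hok (sk 0 (sk 5 ι)), ok_sk hok (sk 3 (sk 4 ι)), ok_sk hok (sk 2 (sk 4 ι)), ok_sk hok (sk 1 (sk 4 ι)), ok_sk hok (sk 0 (sk 4 ι)), ok_sk hok (sk 2 (sk 3 ι)), ok_sk hok (sk 1 (sk 3 ι)), ok_sk hok (sk 0 (sk 3 ι)), ok_sk hok (sk 1 (sk 2 ι)), ok_sk hok (sk 0 (sk 2 ι)), ok_sk hok (sk 0 (sk 1 ι))⟩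

theorem main_ineq {ok : ℕ → Bool} (h3 : ∀ A ∈ H, A.card = 3)
    (hok : ∀ T ∈ P V 4, ok (C4 H T) = true) {κ c : ℤ} (hc : 0 ≤ c)
    {ix : ℕ → ℕ → ℕ} {N : ℕ → ℕ} (hix : IxOk ok ix N) {q : ℕ → ℕ → ℕ → ℤ}
    (hq : ∀ s a b, q s a b = q s b a)
    (hpsd : ∀ t, ok t = true → ∀ (s : Finset V) (I : V → ℕ), (∀ x ∈ s, I x < N t) →
      0 ≤ ∑ x ∈ s, ∑ y ∈ s, q t (I x) (I y))
    {M : ℤ} (hM : 0 ≤ M) (hdiag : ∀ t, ok t = true → ∀ i < N t, q t i i ≤ M)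
    {ix2 : ℕ → ℕ → ℕ} {N2 : ℕ} (hix2 : Ix2Ok ok ix2 N2) {q2 : ℕ → ℕ → ℤ}
    (hq2 : ∀ a b, q2 a b = q2 b a)
    (hpsd2 : ∀ (s : Finset (Finset V)) (I : Finset V → ℕ), (∀ x ∈ s, I x < N2) →
      0 ≤ ∑ x ∈ s, ∑ y ∈ s, q2 (I x) (I y))
    {M2 : ℤ} (hM2 : 0 ≤ M2) (hmax : ∀ i < N2, ∀ j < N2, q2 i j ≤ M2)
    (hleaf : Leaf ok κ c ix q ix2 q2) (hn : 5 ≤ Fintype.card V) :
    9 * κ * ((Fintype.card V - 3).choose 3 : ℕ) * H.card ≤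
      100 * κ * ((Fintype.card V).choose 6 : ℕ) +
      (M + 24 * M2) * ((Fintype.card V).choose 4 : ℕ) * Fintype.card V +
      c * (225 * ((Fintype.card V).choose 3 : ℕ) * Fintype.card V ^ 2) := by
  have hl : ∀ S ∈ P V 6, 9 * κ * ∑ A ∈ S.powersetCard 3, (if A ∈ H then (1 : ℤ) else 0) +
      ∑ x ∈ S, ∑ y ∈ S.erase x, Qt H ix q ((S.erase x).erase y) x y +
      c * ∑ x ∈ S, Wt H (S.erase x) +
      ∑ K ∈ S.powersetCard 4, ∑ K' ∈ (S.powersetCard 4).filter (fun K' => (K ∩ K').card = 2),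
        Q2t H ix2 q2 K K' ≤ 100 * κ := by
    intro S hS
    obtain ⟨ι, rfl⟩ := exists_img (mem_P.1 hS)
    rw [edg_img, pairs_img ix q hq, w5_img, two_img ix2 q2 hq2]
    exact hleaf (e H (ι 0) (ι 1) (ι 2)) (e H (ι 0) (ι 1) (ι 3)) (e H (ι 0) (ι 2) (ι 3)) (e H (ι 1) (ι 2) (ι 3)) (e H (ι 0) (ι 1) (ι 4)) (e H (ι 0) (ι 2) (ι 4)) (e H (ι 1) (ι 2) (ι 4)) (e H (ι 0) (ι 3) (ι 4)) (e H (ι 1) (ι 3) (ι 4)) (e H (ι 2) (ι 3) (ι 4)) (e H (ι 0) (ι 1) (ι 5)) (e H (ι 0) (ι 2) (ι 5)) (e H (ι 1) (ι 2) (ι 5)) (e H (ι 0) (ι 3) (ι 5)) (e H (ι 1) (ι 3) (ι 5)) (e H (ι 2) (ι 3) (ι 5)) (e H (ι 0) (ι 4) (ι 5)) (e H (ι 1) (ι 4) (ι 5)) (e H (ι 2) (ι 4) (ι 5)) (e H (ι 3) (ι 4) (ι 5)) (e_le H (ι 0) (ι 1) (ι 2)) (e_le H (ι 0) (ι 1) (ι 3)) (e_le H (ι 0) (ι 2) (ι 3)) (e_le H (ι 1) (ι 2) (ι 3)) (e_le H (ι 0) (ι 1) (ι 4)) (e_le H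 (ι 0) (ι 2) (ι 4)) (e_le H (ι 1) (ι 2) (ι 4)) (e_le H (ι 0) (ι 3) (ι 4)) (e_le H (ι 1) (ι 3) (ι 4)) (e_le H (ι 2) (ι 3) (ι 4)) (e_le H (ι 0) (ι 1) (ι 5)) (e_le H (ι 0) (ι 2) (ι 5)) (e_le H (ι 1) (ι 2) (ι 5)) (e_le H (ι 0) (ι 3) (ι 5)) (e_le H (ι 1) (ι 3) (ι 5)) (e_le H (ι 2) (ι 3) (ι 5)) (e_le H (ι 0) (ι 4) (ι 5)) (e_le H (ι 1) (ι 4) (ι 5)) (e_le H (ι 2) (ι 4) (ι 5)) (e_le H (ι 3) (ι 4) (ι 5)) (ok6_img hok ι)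
  have hs := sum_le_sum hl
  rw [sum_add_distrib, sum_add_distrib, sum_add_distrib, ← mul_sum, ← mul_sum, dc3, ← dc4, dc5,
    ← dc2, sum_const, nsmul_eq_mul] at hs
  have e6 : ((P V 6).card : ℤ) = ((Fintype.card V).choose 6 : ℕ) := by
    unfold P
    rw [card_powersetCard, card_univ]
  have eH : ∑ A ∈ P V 3, (if A ∈ H then (1 : ℤ) else 0) = H.card := by
    rw [← sum_filter, sum_const, nsmul_eq_mul, mul_one]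
    congr 2
    ext A
    rw [mem_filter, mem_P]
    exact ⟨fun h => h.2, fun h => ⟨h3 A h, h⟩⟩
  have l4 := lower4 hok hix hpsd hM hdiag
  have l2 := lower2 hok hix2 hpsd2 hM2 hmax
  have lW : -(225 * ((Fintype.card V).choose 3 : ℤ) * Fintype.card V) ≤ ∑ R ∈ P V 5, Wt H R := by
    have h := lowerW (V := V) (H := H)
    rw [dc1] at h
    exact h
  rw [e6, eH] at hs
  have hn' : (0 : ℤ) ≤ (Fintype.card V : ℤ) - 5 := by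
    have : (5 : ℤ) ≤ Fintype.card V := by exact_mod_cast hn
    linarith
  have lW2 := mul_le_mul_of_nonneg_left (mul_le_mul_of_nonneg_left lW hn') hc
  have lW3 : c * (((Fintype.card V : ℤ) - 5) * (225 * ((Fintype.card V).choose 3 : ℤ) *
      Fintype.card V)) ≤ c * (225 * ((Fintype.card V).choose 3 : ℕ) * Fintype.card V ^ 2) := by
    refine mul_le_mul_of_nonneg_left ?_ hc
    have : (0 : ℤ) ≤ 5 * (225 * ((Fintype.card V).choose 3 : ℤ) * Fintype.card V) := by positivity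
    nlinarith
  linarith

end Pool.Agent.Helper3.OP
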