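import Pool.Agent.Helper3.OP.Low

/-! The square terms with two fixed and two further vertices. -/

set_option autoImplicit false
set_option linter.unusedVariables false
set_option maxHeartbeats 4000000
set_option maxRecDepth 10000
open Finset

namespace Pool.Agent.Helper3.OP

/-- the sum over the pairs of sets of four vertices with two common vertices -/
def twoSum (ix : ℕ → ℕ → ℕ) (q : ℕ → ℕ → ℤ) (b012 b013 b023 b123 b014 b024 b124 b034 b134 b234 b015 b025 b125 b035 b135 b235 b045 b145 b245 b345 : ℕ) : ℤ :=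
  q (ix 3 (c4 b012 b013 b023 b123)) (ix 3 (c4 b014 b015 b045 b145)) +
    q (ix 5 (c4 b012 b013 b023 b123)) (ix 3 (c4 b024 b025 b045 b245)) +
    q (ix 6 (c4 b012 b013 b023 b123)) (ix 3 (c4 b124 b125 b145 b245)) +
    q (ix 9 (c4 b012 b013 b023 b123)) (ix 3 (c4 b034 b035 b045 b345)) +
    q (ix 10 (c4 b012 b013 b023 b123)) (ix 3 (c4 b134 b135 b145 b345)) +
    q (ix 12 (c4 b012 b013 b023 b123)) (ix 3 (c4 b234 b235 b245 b345)) +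
    q (ix 3 (c4 b012 b014 b024 b124)) (ix 3 (c4 b013 b015 b035 b135)) +
    q (ix 5 (c4 b012 b014 b024 b124)) (ix 3 (c4 b023 b025 b035 b235)) +
    q (ix 6 (c4 b012 b014 b024 b124)) (ix 3 (c4 b123 b125 b135 b235)) +
    q (ix 9 (c4 b012 b014 b024 b124)) (ix 5 (c4 b034 b035 b045 b345)) +
    q (ix 10 (c4 b012 b014 b024 b124)) (ix 5 (c4 b134 b135 b145 b345)) +
    q (ix 12 (c4 b012 b014 b024 b124)) (ix 5 (c4 b234 b235 b245 b345)) +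
    q (ix 3 (c4 b013 b014 b034 b134)) (ix 3 (c4 b012 b015 b025 b125)) +
    q (ix 5 (c4 b013 b014 b034 b134)) (ix 5 (c4 b023 b025 b035 b235)) +
    q (ix 6 (c4 b013 b014 b034 b134)) (ix 5 (c4 b123 b125 b135 b235)) +
    q (ix 9 (c4 b013 b014 b034 b134)) (ix 5 (c4 b024 b025 b045 b245)) +
    q (ix 10 (c4 b013 b014 b034 b134)) (ix 5 (c4 b124 b125 b145 b245)) +
    q (ix 12 (c4 b013 b014 b034 b134)) (ix 6 (c4 b234 b235 b245 b345)) +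
    q (ix 3 (c4 b023 b024 b034 b234)) (ix 5 (c4 b012 b015 b025 b125)) +
    q (ix 5 (c4 b023 b024 b034 b234)) (ix 5 (c4 b013 b015 b035 b135)) +
    q (ix 6 (c4 b023 b024 b034 b234)) (ix 6 (c4 b123 b125 b135 b235)) +
    q (ix 9 (c4 b023 b024 b034 b234)) (ix 5 (c4 b014 b015 b045 b145)) +
    q (ix 10 (c4 b023 b024 b034 b234)) (ix 6 (c4 b124 b125 b145 b245)) +
    q (ix 12 (c4 b023 b024 b034 b234)) (ix 6 (c4 b134 b135 b145 b345)) +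
    q (ix 3 (c4 b123 b124 b134 b234)) (ix 6 (c4 b012 b015 b025 b125)) +
    q (ix 5 (c4 b123 b124 b134 b234)) (ix 6 (c4 b013 b015 b035 b135)) +
    q (ix 6 (c4 b123 b124 b134 b234)) (ix 6 (c4 b023 b025 b035 b235)) +
    q (ix 9 (c4 b123 b124 b134 b234)) (ix 6 (c4 b014 b015 b045 b145)) +
    q (ix 10 (c4 b123 b124 b134 b234)) (ix 6 (c4 b024 b025 b045 b245)) +
    q (ix 12 (c4 b123 b124 b134 b234)) (ix 6 (c4 b034 b035 b045 b345)) +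
    q (ix 9 (c4 b012 b015 b025 b125)) (ix 9 (c4 b034 b035 b045 b345)) +
    q (ix 10 (c4 b012 b015 b025 b125)) (ix 9 (c4 b134 b135 b145 b345)) +
    q (ix 12 (c4 b012 b015 b025 b125)) (ix 9 (c4 b234 b235 b245 b345)) +
    q (ix 9 (c4 b013 b015 b035 b135)) (ix 9 (c4 b024 b025 b045 b245)) +
    q (ix 10 (c4 b013 b015 b035 b135)) (ix 9 (c4 b124 b125 b145 b245)) +
    q (ix 12 (c4 b013 b015 b035 b135)) (ix 10 (c4 b234 b235 b245 b345)) +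
    q (ix 9 (c4 b023 b025 b035 b235)) (ix 9 (c4 b014 b015 b045 b145)) +
    q (ix 10 (c4 b023 b025 b035 b235)) (ix 10 (c4 b124 b125 b145 b245)) +
    q (ix 12 (c4 b023 b025 b035 b235)) (ix 10 (c4 b134 b135 b145 b345)) +
    q (ix 9 (c4 b123 b125 b135 b235)) (ix 10 (c4 b014 b015 b045 b145)) +
    q (ix 10 (c4 b123 b125 b135 b235)) (ix 10 (c4 b024 b025 b045 b245)) +
    q (ix 12 (c4 b123 b125 b135 b235)) (ix 10 (c4 b034 b035 b045 b345)) +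
    q (ix 12 (c4 b014 b015 b045 b145)) (ix 12 (c4 b234 b235 b245 b345)) +
    q (ix 12 (c4 b024 b025 b045 b245)) (ix 12 (c4 b134 b135 b145 b345)) +
    q (ix 12 (c4 b124 b125 b145 b245)) (ix 12 (c4 b034 b035 b045 b345))

variable {V : Type} [Fintype V] [LinearOrder V] {H : Finset (Finset V)}

/-- the position of a subset -/
def msk (K T : Finset V) : ℕ := ∑ x ∈ T, 2 ^ pos K x

/-- the value of two sets of four vertices -/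
def Q2t (H : Finset (Finset V)) (ix : ℕ → ℕ → ℕ) (q : ℕ → ℕ → ℤ) (K K' : Finset V) : ℤ :=
  q (ix (msk K (K ∩ K')) (C4 H K)) (ix (msk K' (K ∩ K')) (C4 H K'))

theorem pos_img' {k : ℕ} (κ : Fin k ↪o V) (p : Fin k) : pos (img κ) (κ p) = p := by
  unfold pos
  have h : (img κ).filter (· < κ p) = (Iio p).map κ.toEmbedding := by
    ext x
    simp only [img, mem_filter, mem_map, mem_univ, true_and, mem_Iio]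
    constructor
    · rintro ⟨⟨i, rfl⟩, h2⟩
      have h3 : κ i < κ p := h2
      exact ⟨i, κ.lt_iff_lt.1 h3, rfl⟩
    · rintro ⟨i, hi, rfl⟩
      have h3 : κ i < κ p := κ.lt_iff_lt.2 hi
      exact ⟨⟨i, rfl⟩, h3⟩
  rw [h, card_map, Fin.card_Iio]

theorem msk_img (κ : Fin 4 ↪o V) (a b : Fin 4) (hab : a ≠ b) :
    msk (img κ) {κ a, κ b} = 2 ^ (a : ℕ) + 2 ^ (b : ℕ) := by
  unfold msk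
  rw [sum_pair (fun h => hab (κ.injective h)), pos_img', pos_img']

theorem term2 (ix : ℕ → ℕ → ℕ) (q : ℕ → ℕ → ℤ) (κ κ' : Fin 4 ↪o V) (K K' : Finset V)
    (a b a' b' : Fin 4) (hab : a ≠ b) (hab' : a' ≠ b') (hK : K = img κ) (hK' : K' = img κ')
    (hT : K ∩ K' = {κ a, κ b}) (ha : κ a = κ' a') (hb : κ b = κ' b') :
    Q2t H ix q K K' = q (ix (2 ^ (a : ℕ) + 2 ^ (b : ℕ)) (cod4 H κ))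
      (ix (2 ^ (a' : ℕ) + 2 ^ (b' : ℕ)) (cod4 H κ')) := by
  unfold Q2t
  rw [hT, hK, hK', C4_img, C4_img, msk_img κ a b hab, ha, hb, msk_img κ' a' b' hab']

theorem inter_map (ι : Fin 6 ↪o V) (α β : Finset (Fin 6)) (x y : Fin 6) (h : α ∩ β = {x, y}) :
    α.map ι.toEmbedding ∩ β.map ι.toEmbedding = {ι x, ι y} := by
  rw [← map_inter, h]
  simp

theorem map_sk (ι : Fin 6 ↪o V) (α : Finset (Fin 6)) (j : Fin 6) (p : Fin 5)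
    (h : α = ((univ : Finset (Fin 6)).erase j).erase (j.succAbove p)) :
    α.map ι.toEmbedding = img (sk p (sk j ι)) := by
  rw [← erase_img, ← erase_img, sk_apply, h, map_erase, map_erase]
  rfl

theorem pairs6 (g : Finset (Fin 6) → Finset (Fin 6) → ℤ) :
    ∑ α ∈ (univ : Finset (Fin 6)).powersetCard 4,
      ∑ β ∈ ((univ : Finset (Fin 6)).powersetCard 4).filter (fun β => (α ∩ β).card = 2), g α β =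
      g {0, 1, 2, 3} {0, 1, 4, 5} +
      g {0, 1, 2, 3} {0, 2, 4, 5} +
      g {0, 1, 2, 3} {1, 2, 4, 5} +
      g {0, 1, 2, 3} {0, 3, 4, 5} +
      g {0, 1, 2, 3} {1, 3, 4, 5} +
      g {0, 1, 2, 3} {2, 3, 4, 5} +
      g {0, 1, 2, 4} {0, 1, 3, 5} +
      g {0, 1, 2, 4} {0, 2, 3, 5} +
      g {0, 1, 2, 4} {1, 2, 3, 5} +
      g {0, 1, 2, 4} {0, 3, 4, 5} +
      g {0, 1, 2, 4} {1, 3, 4, 5} +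
      g {0, 1, 2, 4} {2, 3, 4, 5} +
      g {0, 1, 3, 4} {0, 1, 2, 5} +
      g {0, 1, 3, 4} {0, 2, 3, 5} +
      g {0, 1, 3, 4} {1, 2, 3, 5} +
      g {0, 1, 3, 4} {0, 2, 4, 5} +
      g {0, 1, 3, 4} {1, 2, 4, 5} +
      g {0, 1, 3, 4} {2, 3, 4, 5} +
      g {0, 2, 3, 4} {0, 1, 2, 5} +
      g {0, 2, 3, 4} {0, 1, 3, 5} +
      g {0, 2, 3, 4} {1, 2, 3, 5} +
      g {0, 2, 3, 4} {0, 1, 4, 5} +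
      g {0, 2, 3, 4} {1, 2, 4, 5} +
      g {0, 2, 3, 4} {1, 3, 4, 5} +
      g {1, 2, 3, 4} {0, 1, 2, 5} +
      g {1, 2, 3, 4} {0, 1, 3, 5} +
      g {1, 2, 3, 4} {0, 2, 3, 5} +
      g {1, 2, 3, 4} {0, 1, 4, 5} +
      g {1, 2, 3, 4} {0, 2, 4, 5} +
      g {1, 2, 3, 4} {0, 3, 4, 5} +
      g {0, 1, 2, 5} {0, 1, 3, 4} +
      g {0, 1, 2, 5} {0, 2, 3, 4} +
      g {0, 1, 2, 5} {1, 2, 3, 4} +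
      g {0, 1, 2, 5} {0, 3, 4, 5} +
      g {0, 1, 2, 5} {1, 3, 4, 5} +
      g {0, 1, 2, 5} {2, 3, 4, 5} +
      g {0, 1, 3, 5} {0, 1, 2, 4} +
      g {0, 1, 3, 5} {0, 2, 3, 4} +
      g {0, 1, 3, 5} {1, 2, 3, 4} +
      g {0, 1, 3, 5} {0, 2, 4, 5} +
      g {0, 1, 3, 5} {1, 2, 4, 5} +
      g {0, 1, 3, 5} {2, 3, 4, 5} +
      g {0, 2, 3, 5} {0, 1, 2, 4} +
      g {0, 2, 3, 5} {0, 1, 3, 4} +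
      g {0, 2, 3, 5} {1, 2, 3, 4} +
      g {0, 2, 3, 5} {0, 1, 4, 5} +
      g {0, 2, 3, 5} {1, 2, 4, 5} +
      g {0, 2, 3, 5} {1, 3, 4, 5} +
      g {1, 2, 3, 5} {0, 1, 2, 4} +
      g {1, 2, 3, 5} {0, 1, 3, 4} +
      g {1, 2, 3, 5} {0, 2, 3, 4} +
      g {1, 2, 3, 5} {0, 1, 4, 5} +
      g {1, 2, 3, 5} {0, 2, 4, 5} +
      g {1, 2, 3, 5} {0, 3, 4, 5} +
      g {0, 1, 4, 5} {0, 1, 2, 3} +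
      g {0, 1, 4, 5} {0, 2, 3, 4} +
      g {0, 1, 4, 5} {1, 2, 3, 4} +
      g {0, 1, 4, 5} {0, 2, 3, 5} +
      g {0, 1, 4, 5} {1, 2, 3, 5} +
      g {0, 1, 4, 5} {2, 3, 4, 5} +
      g {0, 2, 4, 5} {0, 1, 2, 3} +
      g {0, 2, 4, 5} {0, 1, 3, 4} +
      g {0, 2, 4, 5} {1, 2, 3, 4} +
      g {0, 2, 4, 5} {0, 1, 3, 5} +
      g {0, 2, 4, 5} {1, 2, 3, 5} +
      g {0, 2, 4, 5} {1, 3, 4, 5} +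
      g {1, 2, 4, 5} {0, 1, 2, 3} +
      g {1, 2, 4, 5} {0, 1, 3, 4} +
      g {1, 2, 4, 5} {0, 2, 3, 4} +
      g {1, 2, 4, 5} {0, 1, 3, 5} +
      g {1, 2, 4, 5} {0, 2, 3, 5} +
      g {1, 2, 4, 5} {0, 3, 4, 5} +
      g {0, 3, 4, 5} {0, 1, 2, 3} +
      g {0, 3, 4, 5} {0, 1, 2, 4} +
      g {0, 3, 4, 5} {1, 2, 3, 4} +
      g {0, 3, 4, 5} {0, 1, 2, 5} +
      g {0, 3, 4, 5} {1, 2, 3, 5} +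
      g {0, 3, 4, 5} {1, 2, 4, 5} +
      g {1, 3, 4, 5} {0, 1, 2, 3} +
      g {1, 3, 4, 5} {0, 1, 2, 4} +
      g {1, 3, 4, 5} {0, 2, 3, 4} +
      g {1, 3, 4, 5} {0, 1, 2, 5} +
      g {1, 3, 4, 5} {0, 2, 3, 5} +
      g {1, 3, 4, 5} {0, 2, 4, 5} +
      g {2, 3, 4, 5} {0, 1, 2, 3} +
      g {2, 3, 4, 5} {0, 1, 2, 4} +
      g {2, 3, 4, 5} {0, 1, 3, 4} +
      g {2, 3, 4, 5} {0, 1, 2, 5} +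
      g {2, 3, 4, 5} {0, 1, 3, 5} +
      g {2, 3, 4, 5} {0, 1, 4, 5} := by
  have h0 : (univ : Finset (Fin 6)).powersetCard 4 = {{0, 1, 2, 3}, {0, 1, 2, 4}, {0, 1, 3, 4}, {0, 2, 3, 4}, {1, 2, 3, 4}, {0, 1, 2, 5}, {0, 1, 3, 5}, {0, 2, 3, 5}, {1, 2, 3, 5}, {0, 1, 4, 5}, {0, 2, 4, 5}, {1, 2, 4, 5}, {0, 3, 4, 5}, {1, 3, 4, 5}, {2, 3, 4, 5}} := by decide
  rw [h0]
  rw [sum_insert (by decide), sum_insert (by decide), sum_insert (by decide), sum_insert (by decide), sum_insert (by decide), sum_insert (by decide), sum_insert (by decide), sum_insert (by decide), sum_insert (by decide), sum_insert (by decide), sum_insert (by decide), sum_insert (by decide), sum_insert (by decide), sum_insert (by decide), sum_singleton]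
  have h1 : (({{0, 1, 2, 3}, {0, 1, 2, 4}, {0, 1, 3, 4}, {0, 2, 3, 4}, {1, 2, 3, 4}, {0, 1, 2, 5}, {0, 1, 3, 5}, {0, 2, 3, 5}, {1, 2, 3, 5}, {0, 1, 4, 5}, {0, 2, 4, 5}, {1, 2, 4, 5}, {0, 3, 4, 5}, {1, 3, 4, 5}, {2, 3, 4, 5}} : Finset (Finset (Fin 6))).filter (fun β => (({0, 1, 2, 3} : Finset (Fin 6)) ∩ β).card = 2)) = {{0, 1, 4, 5}, {0, 2, 4, 5}, {1, 2, 4, 5}, {0, 3, 4, 5}, {1, 3, 4, 5}, {2, 3, 4, 5}} := by decide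
  have h2 : (({{0, 1, 2, 3}, {0, 1, 2, 4}, {0, 1, 3, 4}, {0, 2, 3, 4}, {1, 2, 3, 4}, {0, 1, 2, 5}, {0, 1, 3, 5}, {0, 2, 3, 5}, {1, 2, 3, 5}, {0, 1, 4, 5}, {0, 2, 4, 5}, {1, 2, 4, 5}, {0, 3, 4, 5}, {1, 3, 4, 5}, {2, 3, 4, 5}} : Finset (Finset (Fin 6))).filter (fun β => (({0, 1, 2, 4} : Finset (Fin 6)) ∩ β).card = 2)) = {{0, 1, 3, 5}, {0, 2, 3, 5}, {1, 2, 3, 5}, {0, 3, 4, 5}, {1, 3, 4, 5}, {2, 3, 4, 5}} := by decide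
  have h3 : (({{0, 1, 2, 3}, {0, 1, 2, 4}, {0, 1, 3, 4}, {0, 2, 3, 4}, {1, 2, 3, 4}, {0, 1, 2, 5}, {0, 1, 3, 5}, {0, 2, 3, 5}, {1, 2, 3, 5}, {0, 1, 4, 5}, {0, 2, 4, 5}, {1, 2, 4, 5}, {0, 3, 4, 5}, {1, 3, 4, 5}, {2, 3, 4, 5}} : Finset (Finset (Fin 6))).filter (fun β => (({0, 1, 3, 4} : Finset (Fin 6)) ∩ β).card = 2)) = {{0, 1, 2, 5}, {0, 2, 3, 5}, {1, 2, 3, 5}, {0, 2, 4, 5}, {1, 2, 4, 5}, {2, 3, 4, 5}} := by decide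
  have h4 : (({{0, 1, 2, 3}, {0, 1, 2, 4}, {0, 1, 3, 4}, {0, 2, 3, 4}, {1, 2, 3, 4}, {0, 1, 2, 5}, {0, 1, 3, 5}, {0, 2, 3, 5}, {1, 2, 3, 5}, {0, 1, 4, 5}, {0, 2, 4, 5}, {1, 2, 4, 5}, {0, 3, 4, 5}, {1, 3, 4, 5}, {2, 3, 4, 5}} : Finset (Finset (Fin 6))).filter (fun β => (({0, 2, 3, 4} : Finset (Fin 6)) ∩ β).card = 2)) = {{0, 1, 2, 5}, {0, 1, 3, 5}, {1, 2, 3, 5}, {0, 1, 4, 5}, {1, 2, 4, 5}, {1, 3, 4, 5}} := by decide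
  have h5 : (({{0, 1, 2, 3}, {0, 1, 2, 4}, {0, 1, 3, 4}, {0, 2, 3, 4}, {1, 2, 3, 4}, {0, 1, 2, 5}, {0, 1, 3, 5}, {0, 2, 3, 5}, {1, 2, 3, 5}, {0, 1, 4, 5}, {0, 2, 4, 5}, {1, 2, 4, 5}, {0, 3, 4, 5}, {1, 3, 4, 5}, {2, 3, 4, 5}} : Finset (Finset (Fin 6))).filter (fun β => (({1, 2, 3, 4} : Finset (Fin 6)) ∩ β).card = 2)) = {{0, 1, 2, 5}, {0, 1, 3, 5}, {0, 2, 3, 5}, {0, 1, 4, 5}, {0, 2, 4, 5}, {0, 3, 4, 5}} := by decide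
  have h6 : (({{0, 1, 2, 3}, {0, 1, 2, 4}, {0, 1, 3, 4}, {0, 2, 3, 4}, {1, 2, 3, 4}, {0, 1, 2, 5}, {0, 1, 3, 5}, {0, 2, 3, 5}, {1, 2, 3, 5}, {0, 1, 4, 5}, {0, 2, 4, 5}, {1, 2, 4, 5}, {0, 3, 4, 5}, {1, 3, 4, 5}, {2, 3, 4, 5}} : Finset (Finset (Fin 6))).filter (fun β => (({0, 1, 2, 5} : Finset (Fin 6)) ∩ β).card = 2)) = {{0, 1, 3, 4}, {0, 2, 3, 4}, {1, 2, 3, 4}, {0, 3, 4, 5}, {1, 3, 4, 5}, {2, 3, 4, 5}} := by decide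
  have h7 : (({{0, 1, 2, 3}, {0, 1, 2, 4}, {0, 1, 3, 4}, {0, 2, 3, 4}, {1, 2, 3, 4}, {0, 1, 2, 5}, {0, 1, 3, 5}, {0, 2, 3, 5}, {1, 2, 3, 5}, {0, 1, 4, 5}, {0, 2, 4, 5}, {1, 2, 4, 5}, {0, 3, 4, 5}, {1, 3, 4, 5}, {2, 3, 4, 5}} : Finset (Finset (Fin 6))).filter (fun β => (({0, 1, 3, 5} : Finset (Fin 6)) ∩ β).card = 2)) = {{0, 1, 2, 4}, {0, 2, 3, 4}, {1, 2, 3, 4}, {0, 2, 4, 5}, {1, 2, 4, 5}, {2, 3, 4, 5}} := by decide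
  have h8 : (({{0, 1, 2, 3}, {0, 1, 2, 4}, {0, 1, 3, 4}, {0, 2, 3, 4}, {1, 2, 3, 4}, {0, 1, 2, 5}, {0, 1, 3, 5}, {0, 2, 3, 5}, {1, 2, 3, 5}, {0, 1, 4, 5}, {0, 2, 4, 5}, {1, 2, 4, 5}, {0, 3, 4, 5}, {1, 3, 4, 5}, {2, 3, 4, 5}} : Finset (Finset (Fin 6))).filter (fun β => (({0, 2, 3, 5} : Finset (Fin 6)) ∩ β).card = 2)) = {{0, 1, 2, 4}, {0, 1, 3, 4}, {1, 2, 3, 4}, {0, 1, 4, 5}, {1, 2, 4, 5}, {1, 3, 4, 5}} := by decide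
  have h9 : (({{0, 1, 2, 3}, {0, 1, 2, 4}, {0, 1, 3, 4}, {0, 2, 3, 4}, {1, 2, 3, 4}, {0, 1, 2, 5}, {0, 1, 3, 5}, {0, 2, 3, 5}, {1, 2, 3, 5}, {0, 1, 4, 5}, {0, 2, 4, 5}, {1, 2, 4, 5}, {0, 3, 4, 5}, {1, 3, 4, 5}, {2, 3, 4, 5}} : Finset (Finset (Fin 6))).filter (fun β => (({1, 2, 3, 5} : Finset (Fin 6)) ∩ β).card = 2)) = {{0, 1, 2, 4}, {0, 1, 3, 4}, {0, 2, 3, 4}, {0, 1, 4, 5}, {0, 2, 4, 5}, {0, 3, 4, 5}} := by decide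
  have h10 : (({{0, 1, 2, 3}, {0, 1, 2, 4}, {0, 1, 3, 4}, {0, 2, 3, 4}, {1, 2, 3, 4}, {0, 1, 2, 5}, {0, 1, 3, 5}, {0, 2, 3, 5}, {1, 2, 3, 5}, {0, 1, 4, 5}, {0, 2, 4, 5}, {1, 2, 4, 5}, {0, 3, 4, 5}, {1, 3, 4, 5}, {2, 3, 4, 5}} : Finset (Finset (Fin 6))).filter (fun β => (({0, 1, 4, 5} : Finset (Fin 6)) ∩ β).card = 2)) = {{0, 1, 2, 3}, {0, 2, 3, 4}, {1, 2, 3, 4}, {0, 2, 3, 5}, {1, 2, 3, 5}, {2, 3, 4, 5}} := by decide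
  have h11 : (({{0, 1, 2, 3}, {0, 1, 2, 4}, {0, 1, 3, 4}, {0, 2, 3, 4}, {1, 2, 3, 4}, {0, 1, 2, 5}, {0, 1, 3, 5}, {0, 2, 3, 5}, {1, 2, 3, 5}, {0, 1, 4, 5}, {0, 2, 4, 5}, {1, 2, 4, 5}, {0, 3, 4, 5}, {1, 3, 4, 5}, {2, 3, 4, 5}} : Finset (Finset (Fin 6))).filter (fun β => (({0, 2, 4, 5} : Finset (Fin 6)) ∩ β).card = 2)) = {{0, 1, 2, 3}, {0, 1, 3, 4}, {1, 2, 3, 4}, {0, 1, 3, 5}, {1, 2, 3, 5}, {1, 3, 4, 5}} := by decide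
  have h12 : (({{0, 1, 2, 3}, {0, 1, 2, 4}, {0, 1, 3, 4}, {0, 2, 3, 4}, {1, 2, 3, 4}, {0, 1, 2, 5}, {0, 1, 3, 5}, {0, 2, 3, 5}, {1, 2, 3, 5}, {0, 1, 4, 5}, {0, 2, 4, 5}, {1, 2, 4, 5}, {0, 3, 4, 5}, {1, 3, 4, 5}, {2, 3, 4, 5}} : Finset (Finset (Fin 6))).filter (fun β => (({1, 2, 4, 5} : Finset (Fin 6)) ∩ β).card = 2)) = {{0, 1, 2, 3}, {0, 1, 3, 4}, {0, 2, 3, 4}, {0, 1, 3, 5}, {0, 2, 3, 5}, {0, 3, 4, 5}} := by decide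
  have h13 : (({{0, 1, 2, 3}, {0, 1, 2, 4}, {0, 1, 3, 4}, {0, 2, 3, 4}, {1, 2, 3, 4}, {0, 1, 2, 5}, {0, 1, 3, 5}, {0, 2, 3, 5}, {1, 2, 3, 5}, {0, 1, 4, 5}, {0, 2, 4, 5}, {1, 2, 4, 5}, {0, 3, 4, 5}, {1, 3, 4, 5}, {2, 3, 4, 5}} : Finset (Finset (Fin 6))).filter (fun β => (({0, 3, 4, 5} : Finset (Fin 6)) ∩ β).card = 2)) = {{0, 1, 2, 3}, {0, 1, 2, 4}, {1, 2, 3, 4}, {0, 1, 2, 5}, {1, 2, 3, 5}, {1, 2, 4, 5}} := by decide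
  have h14 : (({{0, 1, 2, 3}, {0, 1, 2, 4}, {0, 1, 3, 4}, {0, 2, 3, 4}, {1, 2, 3, 4}, {0, 1, 2, 5}, {0, 1, 3, 5}, {0, 2, 3, 5}, {1, 2, 3, 5}, {0, 1, 4, 5}, {0, 2, 4, 5}, {1, 2, 4, 5}, {0, 3, 4, 5}, {1, 3, 4, 5}, {2, 3, 4, 5}} : Finset (Finset (Fin 6))).filter (fun β => (({1, 3, 4, 5} : Finset (Fin 6)) ∩ β).card = 2)) = {{0, 1, 2, 3}, {0, 1, 2, 4}, {0, 2, 3, 4}, {0, 1, 2, 5}, {0, 2, 3, 5}, {0, 2, 4, 5}} := by decide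
  have h15 : (({{0, 1, 2, 3}, {0, 1, 2, 4}, {0, 1, 3, 4}, {0, 2, 3, 4}, {1, 2, 3, 4}, {0, 1, 2, 5}, {0, 1, 3, 5}, {0, 2, 3, 5}, {1, 2, 3, 5}, {0, 1, 4, 5}, {0, 2, 4, 5}, {1, 2, 4, 5}, {0, 3, 4, 5}, {1, 3, 4, 5}, {2, 3, 4, 5}} : Finset (Finset (Fin 6))).filter (fun β => (({2, 3, 4, 5} : Finset (Fin 6)) ∩ β).card = 2)) = {{0, 1, 2, 3}, {0, 1, 2, 4}, {0, 1, 3, 4}, {0, 1, 2, 5}, {0, 1, 3, 5}, {0, 1, 4, 5}} := by decide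
  rw [h1, h2, h3, h4, h5, h6, h7, h8, h9, h10, h11, h12, h13, h14, h15]
  repeat rw [sum_insert (by decide)]
  simp only [sum_singleton]
  ring

theorem two_img (ix : ℕ → ℕ → ℕ) (q : ℕ → ℕ → ℤ) (hq : ∀ a b, q a b = q b a) (ι : Fin 6 ↪o V) :
    ∑ K ∈ (img ι).powersetCard 4,
      ∑ K' ∈ ((img ι).powersetCard 4).filter (fun K' => (K ∩ K').card = 2), Q2t H ix q K K' =
      2 * twoSum ix q (e H (ι 0) (ι 1) (ι 2)) (e H (ι 0) (ι 1) (ι 3)) (e H (ι 0) (ι 2) (ι 3)) (e H (ι 1) (ι 2) (ι 3)) (e H (ι 0) (ι 1) (ι 4)) (e H (ι 0) (ι 2) (ι 4)) (e H (ι 1) (ι 2) (ι 4)) (e H (ι 0) (ι 3) (ι 4)) (e H (ι 1) (ι 3) (ι 4)) (e H (ι 2) (ι 3) (ι 4)) (e H (ι 0) (ι 1) (ι 5)) (e H (ι 0) (ι 2) (ι 5)) (e H (ι 1) (ι 2) (ι 5)) (e H (ι 0) (ι 3) (ι 5)) (e H (ι 1) (ι 3) (ι 5)) (e H (ι 2) (ι 3)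 (ι 5)) (e H (ι 0) (ι 4) (ι 5)) (e H (ι 1) (ι 4) (ι 5)) (e H (ι 2) (ι 4) (ι 5)) (e H (ι 3) (ι 4) (ι 5)) := by
  have h1 : (img ι).powersetCard 4 =
      ((univ : Finset (Fin 6)).powersetCard 4).map (mapEmbedding ι.toEmbedding).toEmbedding := by
    unfold img
    rw [powersetCard_map]
  have h2 : ∑ K ∈ (img ι).powersetCard 4,
      ∑ K' ∈ ((img ι).powersetCard 4).filter (fun K' => (K ∩ K').card = 2), Q2t H ix q K K' =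
      ∑ α ∈ (univ : Finset (Fin 6)).powersetCard 4,
      ∑ β ∈ ((univ : Finset (Fin 6)).powersetCard 4).filter (fun β => (α ∩ β).card = 2),
        Q2t H ix q (α.map ι.toEmbedding) (β.map ι.toEmbedding) := by
    rw [h1, sum_map]
    refine sum_congr rfl fun α _ => ?_
    rw [filter_map, sum_map]
    refine sum_congr ?_ fun β _ => rfl
    ext β
    simp only [mem_filter, Function.comp_apply]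
    have : (mapEmbedding ι.toEmbedding).toEmbedding α ∩ (mapEmbedding ι.toEmbedding).toEmbedding β
        = (α ∩ β).map ι.toEmbedding := by
      rw [map_inter]
      rfl
    rw [this, card_map]
  rw [h2, pairs6 (fun α β => Q2t H ix q (α.map ι.toEmbedding) (β.map ι.toEmbedding))]
  have t0_9 : Q2t H ix q (({0, 1, 2, 3} : Finset (Fin 6)).map ι.toEmbedding) (({0, 1, 4, 5} : Finset (Fin 6)).map ι.toEmbedding) =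
      q (ix 3 (c4 (e H (ι 0) (ι 1) (ι 2)) (e H (ι 0) (ι 1) (ι 3)) (e H (ι 0) (ι 2) (ι 3)) (e H (ι 1) (ι 2) (ι 3)))) (ix 3 (c4 (e H (ι 0) (ι 1) (ι 4)) (e H (ι 0) (ι 1) (ι 5)) (e H (ι 0) (ι 4) (ι 5)) (e H (ι 1) (ι 4) (ι 5)))) :=
    term2 ix q (sk 4 (sk 5 ι)) (sk 2 (sk 3 ι)) _ _ 0 1 0 1 (by decide) (by decide)
      (map_sk ι _ 5 4 (by decide)) (map_sk ι _ 3 2 (by decide)) (inter_map ι _ _ 0 1 (by decide)) rfl rfl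
  have t0_10 : Q2t H ix q (({0, 1, 2, 3} : Finset (Fin 6)).map ι.toEmbedding) (({0, 2, 4, 5} : Finset (Fin 6)).map ι.toEmbedding) =
      q (ix 5 (c4 (e H (ι 0) (ι 1) (ι 2)) (e H (ι 0) (ι 1) (ι 3)) (e H (ι 0) (ι 2) (ι 3)) (e H (ι 1) (ι 2) (ι 3)))) (ix 3 (c4 (e H (ι 0) (ι 2) (ι 4)) (e H (ι 0) (ι 2) (ι 5)) (e H (ι 0) (ι 4) (ι 5)) (e H (ι 2) (ι 4) (ι 5)))) :=
    term2 ix q (sk 4 (sk 5 ι)) (sk 1 (sk 3 ι)) _ _ 0 2 0 1 (by decide) (by decide)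
      (map_sk ι _ 5 4 (by decide)) (map_sk ι _ 3 1 (by decide)) (inter_map ι _ _ 0 2 (by decide)) rfl rfl
  have t0_11 : Q2t H ix q (({0, 1, 2, 3} : Finset (Fin 6)).map ι.toEmbedding) (({1, 2, 4, 5} : Finset (Fin 6)).map ι.toEmbedding) =
      q (ix 6 (c4 (e H (ι 0) (ι 1) (ι 2)) (e H (ι 0) (ι 1) (ι 3)) (e H (ι 0) (ι 2) (ι 3)) (e H (ι 1) (ι 2) (ι 3)))) (ix 3 (c4 (e H (ι 1) (ι 2) (ι 4)) (e H (ι 1) (ι 2) (ι 5)) (e H (ι 1) (ι 4) (ι 5)) (e H (ι 2) (ι 4) (ι 5)))) :=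
    term2 ix q (sk 4 (sk 5 ι)) (sk 0 (sk 3 ι)) _ _ 1 2 0 1 (by decide) (by decide)
      (map_sk ι _ 5 4 (by decide)) (map_sk ι _ 3 0 (by decide)) (inter_map ι _ _ 1 2 (by decide)) rfl rfl
  have t0_12 : Q2t H ix q (({0, 1, 2, 3} : Finset (Fin 6)).map ι.toEmbedding) (({0, 3, 4, 5} : Finset (Fin 6)).map ι.toEmbedding) =
      q (ix 9 (c4 (e H (ι 0) (ι 1) (ι 2)) (e H (ι 0) (ι 1) (ι 3)) (e H (ι 0) (ι 2) (ι 3)) (e H (ι 1) (ι 2) (ι 3)))) (ix 3 (c4 (e H (ι 0) (ι 3) (ι 4)) (e H (ι 0) (ι 3) (ι 5)) (e H (ι 0) (ι 4) (ι 5)) (e H (ι 3) (ι 4) (ι 5)))) :=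
    term2 ix q (sk 4 (sk 5 ι)) (sk 1 (sk 2 ι)) _ _ 0 3 0 1 (by decide) (by decide)
      (map_sk ι _ 5 4 (by decide)) (map_sk ι _ 2 1 (by decide)) (inter_map ι _ _ 0 3 (by decide)) rfl rfl
  have t0_13 : Q2t H ix q (({0, 1, 2, 3} : Finset (Fin 6)).map ι.toEmbedding) (({1, 3, 4, 5} : Finset (Fin 6)).map ι.toEmbedding) =
      q (ix 10 (c4 (e H (ι 0) (ι 1) (ι 2)) (e H (ι 0) (ι 1) (ι 3)) (e H (ι 0) (ι 2) (ι 3)) (e H (ι 1) (ι 2) (ι 3)))) (ix 3 (c4 (e H (ι 1) (ι 3) (ι 4)) (e H (ι 1) (ι 3) (ι 5)) (e H (ι 1) (ι 4) (ι 5)) (e H (ι 3) (ι 4) (ι 5)))) :=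
    term2 ix q (sk 4 (sk 5 ι)) (sk 0 (sk 2 ι)) _ _ 1 3 0 1 (by decide) (by decide)
      (map_sk ι _ 5 4 (by decide)) (map_sk ι _ 2 0 (by decide)) (inter_map ι _ _ 1 3 (by decide)) rfl rfl
  have t0_14 : Q2t H ix q (({0, 1, 2, 3} : Finset (Fin 6)).map ι.toEmbedding) (({2, 3, 4, 5} : Finset (Fin 6)).map ι.toEmbedding) =
      q (ix 12 (c4 (e H (ι 0) (ι 1) (ι 2)) (e H (ι 0) (ι 1) (ι 3)) (e H (ι 0) (ι 2) (ι 3)) (e H (ι 1) (ι 2) (ι 3)))) (ix 3 (c4 (e H (ι 2) (ι 3) (ι 4)) (e H (ι 2) (ι 3) (ι 5)) (e H (ι 2) (ι 4) (ι 5)) (e H (ι 3) (ι 4) (ι 5)))) :=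
    term2 ix q (sk 4 (sk 5 ι)) (sk 0 (sk 1 ι)) _ _ 2 3 0 1 (by decide) (by decide)
      (map_sk ι _ 5 4 (by decide)) (map_sk ι _ 1 0 (by decide)) (inter_map ι _ _ 2 3 (by decide)) rfl rfl
  have t1_6 : Q2t H ix q (({0, 1, 2, 4} : Finset (Fin 6)).map ι.toEmbedding) (({0, 1, 3, 5} : Finset (Fin 6)).map ι.toEmbedding) =
      q (ix 3 (c4 (e H (ι 0) (ι 1) (ι 2)) (e H (ι 0) (ι 1) (ι 4)) (e H (ι 0) (ι 2) (ι 4)) (e H (ι 1) (ι 2) (ι 4)))) (ix 3 (c4 (e H (ι 0) (ι 1) (ι 3)) (e H (ι 0) (ι 1) (ι 5)) (e H (ι 0) (ι 3) (ι 5)) (e H (ι 1) (ι 3) (ι 5)))) :=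
    term2 ix q (sk 3 (sk 5 ι)) (sk 2 (sk 4 ι)) _ _ 0 1 0 1 (by decide) (by decide)
      (map_sk ι _ 5 3 (by decide)) (map_sk ι _ 4 2 (by decide)) (inter_map ι _ _ 0 1 (by decide)) rfl rfl
  have t1_7 : Q2t H ix q (({0, 1, 2, 4} : Finset (Fin 6)).map ι.toEmbedding) (({0, 2, 3, 5} : Finset (Fin 6)).map ι.toEmbedding) =
      q (ix 5 (c4 (e H (ι 0) (ι 1) (ι 2)) (e H (ι 0) (ι 1) (ι 4)) (e H (ι 0) (ι 2) (ι 4)) (e H (ι 1) (ι 2) (ι 4)))) (ix 3 (c4 (e H (ι 0) (ι 2) (ι 3)) (e H (ι 0) (ι 2) (ι 5)) (e H (ι 0) (ι 3) (ι 5)) (e H (ι 2) (ι 3) (ι 5)))) :=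
    term2 ix q (sk 3 (sk 5 ι)) (sk 1 (sk 4 ι)) _ _ 0 2 0 1 (by decide) (by decide)
      (map_sk ι _ 5 3 (by decide)) (map_sk ι _ 4 1 (by decide)) (inter_map ι _ _ 0 2 (by decide)) rfl rfl
  have t1_8 : Q2t H ix q (({0, 1, 2, 4} : Finset (Fin 6)).map ι.toEmbedding) (({1, 2, 3, 5} : Finset (Fin 6)).map ι.toEmbedding) =
      q (ix 6 (c4 (e H (ι 0) (ι 1) (ι 2)) (e H (ι 0) (ι 1) (ι 4)) (e H (ι 0) (ι 2) (ι 4)) (e H (ι 1) (ι 2) (ι 4)))) (ix 3 (c4 (e H (ι 1) (ι 2) (ι 3)) (e H (ι 1) (ι 2) (ι 5)) (e H (ι 1) (ι 3) (ι 5)) (e H (ι 2) (ι 3) (ι 5)))) :=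
    term2 ix q (sk 3 (sk 5 ι)) (sk 0 (sk 4 ι)) _ _ 1 2 0 1 (by decide) (by decide)
      (map_sk ι _ 5 3 (by decide)) (map_sk ι _ 4 0 (by decide)) (inter_map ι _ _ 1 2 (by decide)) rfl rfl
  have t1_12 : Q2t H ix q (({0, 1, 2, 4} : Finset (Fin 6)).map ι.toEmbedding) (({0, 3, 4, 5} : Finset (Fin 6)).map ι.toEmbedding) =
      q (ix 9 (c4 (e H (ι 0) (ι 1) (ι 2)) (e H (ι 0) (ι 1) (ι 4)) (e H (ι 0) (ι 2) (ι 4)) (e H (ι 1) (ι 2) (ι 4)))) (ix 5 (c4 (e H (ι 0) (ι 3) (ι 4)) (e H (ι 0) (ι 3) (ι 5)) (e H (ι 0) (ι 4) (ι 5)) (e H (ι 3) (ι 4) (ι 5)))) :=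
    term2 ix q (sk 3 (sk 5 ι)) (sk 1 (sk 2 ι)) _ _ 0 3 0 2 (by decide) (by decide)
      (map_sk ι _ 5 3 (by decide)) (map_sk ι _ 2 1 (by decide)) (inter_map ι _ _ 0 4 (by decide)) rfl rfl
  have t1_13 : Q2t H ix q (({0, 1, 2, 4} : Finset (Fin 6)).map ι.toEmbedding) (({1, 3, 4, 5} : Finset (Fin 6)).map ι.toEmbedding) =
      q (ix 10 (c4 (e H (ι 0) (ι 1) (ι 2)) (e H (ι 0) (ι 1) (ι 4)) (e H (ι 0) (ι 2) (ι 4)) (e H (ι 1) (ι 2) (ι 4)))) (ix 5 (c4 (e H (ι 1) (ι 3) (ι 4)) (e H (ι 1) (ι 3) (ι 5)) (e H (ι 1) (ι 4) (ι 5)) (e H (ι 3) (ι 4) (ι 5)))) :=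
    term2 ix q (sk 3 (sk 5 ι)) (sk 0 (sk 2 ι)) _ _ 1 3 0 2 (by decide) (by decide)
      (map_sk ι _ 5 3 (by decide)) (map_sk ι _ 2 0 (by decide)) (inter_map ι _ _ 1 4 (by decide)) rfl rfl
  have t1_14 : Q2t H ix q (({0, 1, 2, 4} : Finset (Fin 6)).map ι.toEmbedding) (({2, 3, 4, 5} : Finset (Fin 6)).map ι.toEmbedding) =
      q (ix 12 (c4 (e H (ι 0) (ι 1) (ι 2)) (e H (ι 0) (ι 1) (ι 4)) (e H (ι 0) (ι 2) (ι 4)) (e H (ι 1) (ι 2) (ι 4)))) (ix 5 (c4 (e H (ι 2) (ι 3) (ι 4)) (e H (ι 2) (ι 3) (ι 5)) (e H (ι 2) (ι 4) (ι 5)) (e H (ι 3) (ι 4) (ι 5)))) :=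
    term2 ix q (sk 3 (sk 5 ι)) (sk 0 (sk 1 ι)) _ _ 2 3 0 2 (by decide) (by decide)
      (map_sk ι _ 5 3 (by decide)) (map_sk ι _ 1 0 (by decide)) (inter_map ι _ _ 2 4 (by decide)) rfl rfl
  have t2_5 : Q2t H ix q (({0, 1, 3, 4} : Finset (Fin 6)).map ι.toEmbedding) (({0, 1, 2, 5} : Finset (Fin 6)).map ι.toEmbedding) =
      q (ix 3 (c4 (e H (ι 0) (ι 1) (ι 3)) (e H (ι 0) (ι 1) (ι 4)) (e H (ι 0) (ι 3) (ι 4)) (e H (ι 1) (ι 3) (ι 4)))) (ix 3 (c4 (e H (ι 0) (ι 1) (ι 2)) (e H (ι 0) (ι 1) (ι 5)) (e H (ι 0) (ι 2) (ι 5)) (e H (ι 1) (ι 2) (ι 5)))) :=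
    term2 ix q (sk 2 (sk 5 ι)) (sk 3 (sk 4 ι)) _ _ 0 1 0 1 (by decide) (by decide)
      (map_sk ι _ 5 2 (by decide)) (map_sk ι _ 4 3 (by decide)) (inter_map ι _ _ 0 1 (by decide)) rfl rfl
  have t2_7 : Q2t H ix q (({0, 1, 3, 4} : Finset (Fin 6)).map ι.toEmbedding) (({0, 2, 3, 5} : Finset (Fin 6)).map ι.toEmbedding) =
      q (ix 5 (c4 (e H (ι 0) (ι 1) (ι 3)) (e H (ι 0) (ι 1) (ι 4)) (e H (ι 0) (ι 3) (ι 4)) (e H (ι 1) (ι 3) (ι 4)))) (ix 5 (c4 (e H (ι 0) (ι 2) (ι 3)) (e H (ι 0) (ι 2) (ι 5)) (e H (ι 0) (ι 3) (ι 5)) (e H (ι 2) (ι 3) (ι 5)))) :=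
    term2 ix q (sk 2 (sk 5 ι)) (sk 1 (sk 4 ι)) _ _ 0 2 0 2 (by decide) (by decide)
      (map_sk ι _ 5 2 (by decide)) (map_sk ι _ 4 1 (by decide)) (inter_map ι _ _ 0 3 (by decide)) rfl rfl
  have t2_8 : Q2t H ix q (({0, 1, 3, 4} : Finset (Fin 6)).map ι.toEmbedding) (({1, 2, 3, 5} : Finset (Fin 6)).map ι.toEmbedding) =
      q (ix 6 (c4 (e H (ι 0) (ι 1) (ι 3)) (e H (ι 0) (ι 1) (ι 4)) (e H (ι 0) (ι 3) (ι 4)) (e H (ι 1) (ι 3) (ι 4)))) (ix 5 (c4 (e H (ι 1) (ι 2) (ι 3)) (e H (ι 1) (ι 2) (ι 5)) (e H (ι 1) (ι 3) (ι 5)) (e H (ι 2) (ι 3) (ι 5)))) :=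
    term2 ix q (sk 2 (sk 5 ι)) (sk 0 (sk 4 ι)) _ _ 1 2 0 2 (by decide) (by decide)
      (map_sk ι _ 5 2 (by decide)) (map_sk ι _ 4 0 (by decide)) (inter_map ι _ _ 1 3 (by decide)) rfl rfl
  have t2_10 : Q2t H ix q (({0, 1, 3, 4} : Finset (Fin 6)).map ι.toEmbedding) (({0, 2, 4, 5} : Finset (Fin 6)).map ι.toEmbedding) =
      q (ix 9 (c4 (e H (ι 0) (ι 1) (ι 3)) (e H (ι 0) (ι 1) (ι 4)) (e H (ι 0) (ι 3) (ι 4)) (e H (ι 1) (ι 3) (ι 4)))) (ix 5 (c4 (e H (ι 0) (ι 2) (ι 4)) (e H (ι 0) (ι 2) (ι 5)) (e H (ι 0) (ι 4) (ι 5)) (e H (ι 2) (ι 4) (ι 5)))) :=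
    term2 ix q (sk 2 (sk 5 ι)) (sk 1 (sk 3 ι)) _ _ 0 3 0 2 (by decide) (by decide)
      (map_sk ι _ 5 2 (by decide)) (map_sk ι _ 3 1 (by decide)) (inter_map ι _ _ 0 4 (by decide)) rfl rfl
  have t2_11 : Q2t H ix q (({0, 1, 3, 4} : Finset (Fin 6)).map ι.toEmbedding) (({1, 2, 4, 5} : Finset (Fin 6)).map ι.toEmbedding) =
      q (ix 10 (c4 (e H (ι 0) (ι 1) (ι 3)) (e H (ι 0) (ι 1) (ι 4)) (e H (ι 0) (ι 3) (ι 4)) (e H (ι 1) (ι 3) (ι 4)))) (ix 5 (c4 (e H (ι 1) (ι 2) (ι 4)) (e H (ι 1) (ι 2) (ι 5)) (e H (ι 1) (ι 4) (ι 5)) (e H (ι 2) (ι 4) (ι 5)))) :=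
    term2 ix q (sk 2 (sk 5 ι)) (sk 0 (sk 3 ι)) _ _ 1 3 0 2 (by decide) (by decide)
      (map_sk ι _ 5 2 (by decide)) (map_sk ι _ 3 0 (by decide)) (inter_map ι _ _ 1 4 (by decide)) rfl rfl
  have t2_14 : Q2t H ix q (({0, 1, 3, 4} : Finset (Fin 6)).map ι.toEmbedding) (({2, 3, 4, 5} : Finset (Fin 6)).map ι.toEmbedding) =
      q (ix 12 (c4 (e H (ι 0) (ι 1) (ι 3)) (e H (ι 0) (ι 1) (ι 4)) (e H (ι 0) (ι 3) (ι 4)) (e H (ι 1) (ι 3) (ι 4)))) (ix 6 (c4 (e H (ι 2) (ι 3) (ι 4)) (e H (ι 2) (ι 3) (ι 5)) (e H (ι 2) (ι 4) (ι 5)) (e H (ι 3) (ι 4) (ι 5)))) :=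
    term2 ix q (sk 2 (sk 5 ι)) (sk 0 (sk 1 ι)) _ _ 2 3 1 2 (by decide) (by decide)
      (map_sk ι _ 5 2 (by decide)) (map_sk ι _ 1 0 (by decide)) (inter_map ι _ _ 3 4 (by decide)) rfl rfl
  have t3_5 : Q2t H ix q (({0, 2, 3, 4} : Finset (Fin 6)).map ι.toEmbedding) (({0, 1, 2, 5} : Finset (Fin 6)).map ι.toEmbedding) =
      q (ix 3 (c4 (e H (ι 0) (ι 2) (ι 3)) (e H (ι 0) (ι 2) (ι 4)) (e H (ι 0) (ι 3) (ι 4)) (e H (ι 2) (ι 3) (ι 4)))) (ix 5 (c4 (e H (ι 0) (ι 1) (ι 2)) (e H (ι 0) (ι 1) (ι 5)) (e H (ι 0) (ι 2) (ι 5)) (e H (ι 1) (ι 2) (ι 5)))) :=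
    term2 ix q (sk 1 (sk 5 ι)) (sk 3 (sk 4 ι)) _ _ 0 1 0 2 (by decide) (by decide)
      (map_sk ι _ 5 1 (by decide)) (map_sk ι _ 4 3 (by decide)) (inter_map ι _ _ 0 2 (by decide)) rfl rfl
  have t3_6 : Q2t H ix q (({0, 2, 3, 4} : Finset (Fin 6)).map ι.toEmbedding) (({0, 1, 3, 5} : Finset (Fin 6)).map ι.toEmbedding) =
      q (ix 5 (c4 (e H (ι 0) (ι 2) (ι 3)) (e H (ι 0) (ι 2) (ι 4)) (e H (ι 0) (ι 3) (ι 4)) (e H (ι 2) (ι 3) (ι 4)))) (ix 5 (c4 (e H (ι 0) (ι 1) (ι 3)) (e H (ι 0) (ι 1) (ι 5)) (e H (ι 0) (ι 3) (ι 5)) (e H (ι 1) (ι 3) (ι 5)))) :=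
    term2 ix q (sk 1 (sk 5 ι)) (sk 2 (sk 4 ι)) _ _ 0 2 0 2 (by decide) (by decide)
      (map_sk ι _ 5 1 (by decide)) (map_sk ι _ 4 2 (by decide)) (inter_map ι _ _ 0 3 (by decide)) rfl rfl
  have t3_8 : Q2t H ix q (({0, 2, 3, 4} : Finset (Fin 6)).map ι.toEmbedding) (({1, 2, 3, 5} : Finset (Fin 6)).map ι.toEmbedding) =
      q (ix 6 (c4 (e H (ι 0) (ι 2) (ι 3)) (e H (ι 0) (ι 2) (ι 4)) (e H (ι 0) (ι 3) (ι 4)) (e H (ι 2) (ι 3) (ι 4)))) (ix 6 (c4 (e H (ι 1) (ι 2) (ι 3)) (e H (ι 1) (ι 2) (ι 5)) (e H (ι 1) (ι 3) (ι 5)) (e H (ι 2) (ι 3) (ι 5)))) :=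
    term2 ix q (sk 1 (sk 5 ι)) (sk 0 (sk 4 ι)) _ _ 1 2 1 2 (by decide) (by decide)
      (map_sk ι _ 5 1 (by decide)) (map_sk ι _ 4 0 (by decide)) (inter_map ι _ _ 2 3 (by decide)) rfl rfl
  have t3_9 : Q2t H ix q (({0, 2, 3, 4} : Finset (Fin 6)).map ι.toEmbedding) (({0, 1, 4, 5} : Finset (Fin 6)).map ι.toEmbedding) =
      q (ix 9 (c4 (e H (ι 0) (ι 2) (ι 3)) (e H (ι 0) (ι 2) (ι 4)) (e H (ι 0) (ι 3) (ι 4)) (e H (ι 2) (ι 3) (ι 4)))) (ix 5 (c4 (e H (ι 0) (ι 1) (ι 4)) (e H (ι 0) (ι 1) (ι 5)) (e H (ι 0) (ι 4) (ι 5)) (e H (ι 1) (ι 4) (ι 5)))) :=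
    term2 ix q (sk 1 (sk 5 ι)) (sk 2 (sk 3 ι)) _ _ 0 3 0 2 (by decide) (by decide)
      (map_sk ι _ 5 1 (by decide)) (map_sk ι _ 3 2 (by decide)) (inter_map ι _ _ 0 4 (by decide)) rfl rfl
  have t3_11 : Q2t H ix q (({0, 2, 3, 4} : Finset (Fin 6)).map ι.toEmbedding) (({1, 2, 4, 5} : Finset (Fin 6)).map ι.toEmbedding) =
      q (ix 10 (c4 (e H (ι 0) (ι 2) (ι 3)) (e H (ι 0) (ι 2) (ι 4)) (e H (ι 0) (ι 3) (ι 4)) (e H (ι 2) (ι 3) (ι 4)))) (ix 6 (c4 (e H (ι 1) (ι 2) (ι 4)) (e H (ι 1) (ι 2) (ι 5)) (e H (ι 1) (ι 4) (ι 5)) (e H (ι 2) (ι 4) (ι 5)))) :=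
    term2 ix q (sk 1 (sk 5 ι)) (sk 0 (sk 3 ι)) _ _ 1 3 1 2 (by decide) (by decide)
      (map_sk ι _ 5 1 (by decide)) (map_sk ι _ 3 0 (by decide)) (inter_map ι _ _ 2 4 (by decide)) rfl rfl
  have t3_13 : Q2t H ix q (({0, 2, 3, 4} : Finset (Fin 6)).map ι.toEmbedding) (({1, 3, 4, 5} : Finset (Fin 6)).map ι.toEmbedding) =
      q (ix 12 (c4 (e H (ι 0) (ι 2) (ι 3)) (e H (ι 0) (ι 2) (ι 4)) (e H (ι 0) (ι 3) (ι 4)) (e H (ι 2) (ι 3) (ι 4)))) (ix 6 (c4 (e H (ι 1) (ι 3) (ι 4)) (e H (ι 1) (ι 3) (ι 5)) (e H (ι 1) (ι 4) (ι 5)) (e H (ι 3) (ι 4) (ι 5)))) :=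
    term2 ix q (sk 1 (sk 5 ι)) (sk 0 (sk 2 ι)) _ _ 2 3 1 2 (by decide) (by decide)
      (map_sk ι _ 5 1 (by decide)) (map_sk ι _ 2 0 (by decide)) (inter_map ι _ _ 3 4 (by decide)) rfl rfl
  have t4_5 : Q2t H ix q (({1, 2, 3, 4} : Finset (Fin 6)).map ι.toEmbedding) (({0, 1, 2, 5} : Finset (Fin 6)).map ι.toEmbedding) =
      q (ix 3 (c4 (e H (ι 1) (ι 2) (ι 3)) (e H (ι 1) (ι 2) (ι 4)) (e H (ι 1) (ι 3) (ι 4)) (e H (ι 2) (ι 3) (ι 4)))) (ix 6 (c4 (e H (ι 0) (ι 1) (ι 2)) (e H (ι 0) (ι 1) (ι 5)) (e H (ι 0) (ι 2) (ι 5)) (e H (ι 1) (ι 2) (ι 5)))) :=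
    term2 ix q (sk 0 (sk 5 ι)) (sk 3 (sk 4 ι)) _ _ 0 1 1 2 (by decide) (by decide)
      (map_sk ι _ 5 0 (by decide)) (map_sk ι _ 4 3 (by decide)) (inter_map ι _ _ 1 2 (by decide)) rfl rfl
  have t4_6 : Q2t H ix q (({1, 2, 3, 4} : Finset (Fin 6)).map ι.toEmbedding) (({0, 1, 3, 5} : Finset (Fin 6)).map ι.toEmbedding) =
      q (ix 5 (c4 (e H (ι 1) (ι 2) (ι 3)) (e H (ι 1) (ι 2) (ι 4)) (e H (ι 1) (ι 3) (ι 4)) (e H (ι 2) (ι 3) (ι 4)))) (ix 6 (c4 (e H (ι 0) (ι 1) (ι 3)) (e H (ι 0) (ι 1) (ι 5)) (e H (ι 0) (ι 3) (ι 5)) (e H (ι 1) (ι 3) (ι 5)))) :=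
    term2 ix q (sk 0 (sk 5 ι)) (sk 2 (sk 4 ι)) _ _ 0 2 1 2 (by decide) (by decide)
      (map_sk ι _ 5 0 (by decide)) (map_sk ι _ 4 2 (by decide)) (inter_map ι _ _ 1 3 (by decide)) rfl rfl
  have t4_7 : Q2t H ix q (({1, 2, 3, 4} : Finset (Fin 6)).map ι.toEmbedding) (({0, 2, 3, 5} : Finset (Fin 6)).map ι.toEmbedding) =
      q (ix 6 (c4 (e H (ι 1) (ι 2) (ι 3)) (e H (ι 1) (ι 2) (ι 4)) (e H (ι 1) (ι 3) (ι 4)) (e H (ι 2) (ι 3) (ι 4)))) (ix 6 (c4 (e H (ι 0) (ι 2) (ι 3)) (e H (ι 0) (ι 2) (ι 5)) (e H (ι 0) (ι 3) (ι 5)) (e H (ι 2) (ι 3) (ι 5)))) :=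
    term2 ix q (sk 0 (sk 5 ι)) (sk 1 (sk 4 ι)) _ _ 1 2 1 2 (by decide) (by decide)
      (map_sk ι _ 5 0 (by decide)) (map_sk ι _ 4 1 (by decide)) (inter_map ι _ _ 2 3 (by decide)) rfl rfl
  have t4_9 : Q2t H ix q (({1, 2, 3, 4} : Finset (Fin 6)).map ι.toEmbedding) (({0, 1, 4, 5} : Finset (Fin 6)).map ι.toEmbedding) =
      q (ix 9 (c4 (e H (ι 1) (ι 2) (ι 3)) (e H (ι 1) (ι 2) (ι 4)) (e H (ι 1) (ι 3) (ι 4)) (e H (ι 2) (ι 3) (ι 4)))) (ix 6 (c4 (e H (ι 0) (ι 1) (ι 4)) (e H (ι 0) (ι 1) (ι 5)) (e H (ι 0) (ι 4) (ι 5)) (e H (ι 1) (ι 4) (ι 5)))) :=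
    term2 ix q (sk 0 (sk 5 ι)) (sk 2 (sk 3 ι)) _ _ 0 3 1 2 (by decide) (by decide)
      (map_sk ι _ 5 0 (by decide)) (map_sk ι _ 3 2 (by decide)) (inter_map ι _ _ 1 4 (by decide)) rfl rfl
  have t4_10 : Q2t H ix q (({1, 2, 3, 4} : Finset (Fin 6)).map ι.toEmbedding) (({0, 2, 4, 5} : Finset (Fin 6)).map ι.toEmbedding) =
      q (ix 10 (c4 (e H (ι 1) (ι 2) (ι 3)) (e H (ι 1) (ι 2) (ι 4)) (e H (ι 1) (ι 3) (ι 4)) (e H (ι 2) (ι 3) (ι 4)))) (ix 6 (c4 (e H (ι 0) (ι 2) (ι 4)) (e H (ι 0) (ι 2) (ι 5)) (e H (ι 0) (ι 4) (ι 5)) (e H (ι 2) (ι 4) (ι 5)))) :=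
    term2 ix q (sk 0 (sk 5 ι)) (sk 1 (sk 3 ι)) _ _ 1 3 1 2 (by decide) (by decide)
      (map_sk ι _ 5 0 (by decide)) (map_sk ι _ 3 1 (by decide)) (inter_map ι _ _ 2 4 (by decide)) rfl rfl
  have t4_12 : Q2t H ix q (({1, 2, 3, 4} : Finset (Fin 6)).map ι.toEmbedding) (({0, 3, 4, 5} : Finset (Fin 6)).map ι.toEmbedding) =
      q (ix 12 (c4 (e H (ι 1) (ι 2) (ι 3)) (e H (ι 1) (ι 2) (ι 4)) (e H (ι 1) (ι 3) (ι 4)) (e H (ι 2) (ι 3) (ι 4)))) (ix 6 (c4 (e H (ι 0) (ι 3) (ι 4)) (e H (ι 0) (ι 3) (ι 5)) (e H (ι 0) (ι 4) (ι 5)) (e H (ι 3) (ι 4) (ι 5)))) :=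
    term2 ix q (sk 0 (sk 5 ι)) (sk 1 (sk 2 ι)) _ _ 2 3 1 2 (by decide) (by decide)
      (map_sk ι _ 5 0 (by decide)) (map_sk ι _ 2 1 (by decide)) (inter_map ι _ _ 3 4 (by decide)) rfl rfl
  have t5_2 : Q2t H ix q (({0, 1, 2, 5} : Finset (Fin 6)).map ι.toEmbedding) (({0, 1, 3, 4} : Finset (Fin 6)).map ι.toEmbedding) =
      q (ix 3 (c4 (e H (ι 0) (ι 1) (ι 2)) (e H (ι 0) (ι 1) (ι 5)) (e H (ι 0) (ι 2) (ι 5)) (e H (ι 1) (ι 2) (ι 5)))) (ix 3 (c4 (e H (ι 0) (ι 1) (ι 3)) (e H (ι 0) (ι 1) (ι 4)) (e H (ι 0) (ι 3) (ι 4)) (e H (ι 1) (ι 3) (ι 4)))) :=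
    term2 ix q (sk 3 (sk 4 ι)) (sk 2 (sk 5 ι)) _ _ 0 1 0 1 (by decide) (by decide)
      (map_sk ι _ 4 3 (by decide)) (map_sk ι _ 5 2 (by decide)) (inter_map ι _ _ 0 1 (by decide)) rfl rfl
  have t5_3 : Q2t H ix q (({0, 1, 2, 5} : Finset (Fin 6)).map ι.toEmbedding) (({0, 2, 3, 4} : Finset (Fin 6)).map ι.toEmbedding) =
      q (ix 5 (c4 (e H (ι 0) (ι 1) (ι 2)) (e H (ι 0) (ι 1) (ι 5)) (e H (ι 0) (ι 2) (ι 5)) (e H (ι 1) (ι 2) (ι 5)))) (ix 3 (c4 (e H (ι 0) (ι 2) (ι 3)) (e H (ι 0) (ι 2) (ι 4)) (e H (ι 0) (ι 3) (ι 4)) (e H (ι 2) (ι 3) (ι 4)))) :=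
    term2 ix q (sk 3 (sk 4 ι)) (sk 1 (sk 5 ι)) _ _ 0 2 0 1 (by decide) (by decide)
      (map_sk ι _ 4 3 (by decide)) (map_sk ι _ 5 1 (by decide)) (inter_map ι _ _ 0 2 (by decide)) rfl rfl
  have t5_4 : Q2t H ix q (({0, 1, 2, 5} : Finset (Fin 6)).map ι.toEmbedding) (({1, 2, 3, 4} : Finset (Fin 6)).map ι.toEmbedding) =
      q (ix 6 (c4 (e H (ι 0) (ι 1) (ι 2)) (e H (ι 0) (ι 1) (ι 5)) (e H (ι 0) (ι 2) (ι 5)) (e H (ι 1) (ι 2) (ι 5)))) (ix 3 (c4 (e H (ι 1) (ι 2) (ι 3)) (e H (ι 1) (ι 2) (ι 4)) (e H (ι 1) (ι 3) (ι 4)) (e H (ι 2) (ι 3) (ι 4)))) :=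
    term2 ix q (sk 3 (sk 4 ι)) (sk 0 (sk 5 ι)) _ _ 1 2 0 1 (by decide) (by decide)
      (map_sk ι _ 4 3 (by decide)) (map_sk ι _ 5 0 (by decide)) (inter_map ι _ _ 1 2 (by decide)) rfl rfl
  have t5_12 : Q2t H ix q (({0, 1, 2, 5} : Finset (Fin 6)).map ι.toEmbedding) (({0, 3, 4, 5} : Finset (Fin 6)).map ι.toEmbedding) =
      q (ix 9 (c4 (e H (ι 0) (ι 1) (ι 2)) (e H (ι 0) (ι 1) (ι 5)) (e H (ι 0) (ι 2) (ι 5)) (e H (ι 1) (ι 2) (ι 5)))) (ix 9 (c4 (e H (ι 0) (ι 3) (ι 4)) (e H (ι 0) (ι 3) (ι 5)) (e H (ι 0) (ι 4) (ι 5)) (e H (ι 3) (ι 4) (ι 5)))) :=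
    term2 ix q (sk 3 (sk 4 ι)) (sk 1 (sk 2 ι)) _ _ 0 3 0 3 (by decide) (by decide)
      (map_sk ι _ 4 3 (by decide)) (map_sk ι _ 2 1 (by decide)) (inter_map ι _ _ 0 5 (by decide)) rfl rfl
  have t5_13 : Q2t H ix q (({0, 1, 2, 5} : Finset (Fin 6)).map ι.toEmbedding) (({1, 3, 4, 5} : Finset (Fin 6)).map ι.toEmbedding) =
      q (ix 10 (c4 (e H (ι 0) (ι 1) (ι 2)) (e H (ι 0) (ι 1) (ι 5)) (e H (ι 0) (ι 2) (ι 5)) (e H (ι 1) (ι 2) (ι 5)))) (ix 9 (c4 (e H (ι 1) (ι 3) (ι 4)) (e H (ι 1) (ι 3) (ι 5)) (e H (ι 1) (ι 4) (ι 5)) (e H (ι 3) (ι 4) (ι 5)))) :=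
    term2 ix q (sk 3 (sk 4 ι)) (sk 0 (sk 2 ι)) _ _ 1 3 0 3 (by decide) (by decide)
      (map_sk ι _ 4 3 (by decide)) (map_sk ι _ 2 0 (by decide)) (inter_map ι _ _ 1 5 (by decide)) rfl rfl
  have t5_14 : Q2t H ix q (({0, 1, 2, 5} : Finset (Fin 6)).map ι.toEmbedding) (({2, 3, 4, 5} : Finset (Fin 6)).map ι.toEmbedding) =
      q (ix 12 (c4 (e H (ι 0) (ι 1) (ι 2)) (e H (ι 0) (ι 1) (ι 5)) (e H (ι 0) (ι 2) (ι 5)) (e H (ι 1) (ι 2) (ι 5)))) (ix 9 (c4 (e H (ι 2) (ι 3) (ι 4)) (e H (ι 2) (ι 3) (ι 5)) (e H (ι 2) (ι 4) (ι 5)) (e H (ι 3) (ι 4) (ι 5)))) :=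
    term2 ix q (sk 3 (sk 4 ι)) (sk 0 (sk 1 ι)) _ _ 2 3 0 3 (by decide) (by decide)
      (map_sk ι _ 4 3 (by decide)) (map_sk ι _ 1 0 (by decide)) (inter_map ι _ _ 2 5 (by decide)) rfl rfl
  have t6_1 : Q2t H ix q (({0, 1, 3, 5} : Finset (Fin 6)).map ι.toEmbedding) (({0, 1, 2, 4} : Finset (Fin 6)).map ι.toEmbedding) =
      q (ix 3 (c4 (e H (ι 0) (ι 1) (ι 3)) (e H (ι 0) (ι 1) (ι 5)) (e H (ι 0) (ι 3) (ι 5)) (e H (ι 1) (ι 3) (ι 5)))) (ix 3 (c4 (e H (ι 0) (ι 1) (ι 2)) (e H (ι 0) (ι 1) (ι 4)) (e H (ι 0) (ι 2) (ι 4)) (e H (ι 1) (ι 2) (ι 4)))) :=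
    term2 ix q (sk 2 (sk 4 ι)) (sk 3 (sk 5 ι)) _ _ 0 1 0 1 (by decide) (by decide)
      (map_sk ι _ 4 2 (by decide)) (map_sk ι _ 5 3 (by decide)) (inter_map ι _ _ 0 1 (by decide)) rfl rfl
  have t6_3 : Q2t H ix q (({0, 1, 3, 5} : Finset (Fin 6)).map ι.toEmbedding) (({0, 2, 3, 4} : Finset (Fin 6)).map ι.toEmbedding) =
      q (ix 5 (c4 (e H (ι 0) (ι 1) (ι 3)) (e H (ι 0) (ι 1) (ι 5)) (e H (ι 0) (ι 3) (ι 5)) (e H (ι 1) (ι 3) (ι 5)))) (ix 5 (c4 (e H (ι 0) (ι 2) (ι 3)) (e H (ι 0) (ι 2) (ι 4)) (e H (ι 0) (ι 3) (ι 4)) (e H (ι 2) (ι 3) (ι 4)))) :=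
    term2 ix q (sk 2 (sk 4 ι)) (sk 1 (sk 5 ι)) _ _ 0 2 0 2 (by decide) (by decide)
      (map_sk ι _ 4 2 (by decide)) (map_sk ι _ 5 1 (by decide)) (inter_map ι _ _ 0 3 (by decide)) rfl rfl
  have t6_4 : Q2t H ix q (({0, 1, 3, 5} : Finset (Fin 6)).map ι.toEmbedding) (({1, 2, 3, 4} : Finset (Fin 6)).map ι.toEmbedding) =
      q (ix 6 (c4 (e H (ι 0) (ι 1) (ι 3)) (e H (ι 0) (ι 1) (ι 5)) (e H (ι 0) (ι 3) (ι 5)) (e H (ι 1) (ι 3) (ι 5)))) (ix 5 (c4 (e H (ι 1) (ι 2) (ι 3)) (e H (ι 1) (ι 2) (ι 4)) (e H (ι 1) (ι 3) (ι 4)) (e H (ι 2) (ι 3) (ι 4)))) :=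
    term2 ix q (sk 2 (sk 4 ι)) (sk 0 (sk 5 ι)) _ _ 1 2 0 2 (by decide) (by decide)
      (map_sk ι _ 4 2 (by decide)) (map_sk ι _ 5 0 (by decide)) (inter_map ι _ _ 1 3 (by decide)) rfl rfl
  have t6_10 : Q2t H ix q (({0, 1, 3, 5} : Finset (Fin 6)).map ι.toEmbedding) (({0, 2, 4, 5} : Finset (Fin 6)).map ι.toEmbedding) =
      q (ix 9 (c4 (e H (ι 0) (ι 1) (ι 3)) (e H (ι 0) (ι 1) (ι 5)) (e H (ι 0) (ι 3) (ι 5)) (e H (ι 1) (ι 3) (ι 5)))) (ix 9 (c4 (e H (ι 0) (ι 2) (ι 4)) (e H (ι 0) (ι 2) (ι 5)) (e H (ι 0) (ι 4) (ι 5)) (e H (ι 2) (ι 4) (ι 5)))) :=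
    term2 ix q (sk 2 (sk 4 ι)) (sk 1 (sk 3 ι)) _ _ 0 3 0 3 (by decide) (by decide)
      (map_sk ι _ 4 2 (by decide)) (map_sk ι _ 3 1 (by decide)) (inter_map ι _ _ 0 5 (by decide)) rfl rfl
  have t6_11 : Q2t H ix q (({0, 1, 3, 5} : Finset (Fin 6)).map ι.toEmbedding) (({1, 2, 4, 5} : Finset (Fin 6)).map ι.toEmbedding) =
      q (ix 10 (c4 (e H (ι 0) (ι 1) (ι 3)) (e H (ι 0) (ι 1) (ι 5)) (e H (ι 0) (ι 3) (ι 5)) (e H (ι 1) (ι 3) (ι 5)))) (ix 9 (c4 (e H (ι 1) (ι 2) (ι 4)) (e H (ι 1) (ι 2) (ι 5)) (e H (ι 1) (ι 4) (ι 5)) (e H (ι 2) (ι 4) (ι 5)))) :=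
    term2 ix q (sk 2 (sk 4 ι)) (sk 0 (sk 3 ι)) _ _ 1 3 0 3 (by decide) (by decide)
      (map_sk ι _ 4 2 (by decide)) (map_sk ι _ 3 0 (by decide)) (inter_map ι _ _ 1 5 (by decide)) rfl rfl
  have t6_14 : Q2t H ix q (({0, 1, 3, 5} : Finset (Fin 6)).map ι.toEmbedding) (({2, 3, 4, 5} : Finset (Fin 6)).map ι.toEmbedding) =
      q (ix 12 (c4 (e H (ι 0) (ι 1) (ι 3)) (e H (ι 0) (ι 1) (ι 5)) (e H (ι 0) (ι 3) (ι 5)) (e H (ι 1) (ι 3) (ι 5)))) (ix 10 (c4 (e H (ι 2) (ι 3) (ι 4)) (e H (ι 2) (ι 3) (ι 5)) (e H (ι 2) (ι 4) (ι 5)) (e H (ι 3) (ι 4) (ι 5)))) :=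
    term2 ix q (sk 2 (sk 4 ι)) (sk 0 (sk 1 ι)) _ _ 2 3 1 3 (by decide) (by decide)
      (map_sk ι _ 4 2 (by decide)) (map_sk ι _ 1 0 (by decide)) (inter_map ι _ _ 3 5 (by decide)) rfl rfl
  have t7_1 : Q2t H ix q (({0, 2, 3, 5} : Finset (Fin 6)).map ι.toEmbedding) (({0, 1, 2, 4} : Finset (Fin 6)).map ι.toEmbedding) =
      q (ix 3 (c4 (e H (ι 0) (ι 2) (ι 3)) (e H (ι 0) (ι 2) (ι 5)) (e H (ι 0) (ι 3) (ι 5)) (e H (ι 2) (ι 3) (ι 5)))) (ix 5 (c4 (e H (ι 0) (ι 1) (ι 2)) (e H (ι 0) (ι 1) (ι 4)) (e H (ι 0) (ι 2) (ι 4)) (e H (ι 1) (ι 2) (ι 4)))) :=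
    term2 ix q (sk 1 (sk 4 ι)) (sk 3 (sk 5 ι)) _ _ 0 1 0 2 (by decide) (by decide)
      (map_sk ι _ 4 1 (by decide)) (map_sk ι _ 5 3 (by decide)) (inter_map ι _ _ 0 2 (by decide)) rfl rfl
  have t7_2 : Q2t H ix q (({0, 2, 3, 5} : Finset (Fin 6)).map ι.toEmbedding) (({0, 1, 3, 4} : Finset (Fin 6)).map ι.toEmbedding) =
      q (ix 5 (c4 (e H (ι 0) (ι 2) (ι 3)) (e H (ι 0) (ι 2) (ι 5)) (e H (ι 0) (ι 3) (ι 5)) (e H (ι 2) (ι 3) (ι 5)))) (ix 5 (c4 (e H (ι 0) (ι 1) (ι 3)) (e H (ι 0) (ι 1) (ι 4)) (e H (ι 0) (ι 3) (ι 4)) (e H (ι 1) (ι 3) (ι 4)))) :=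
    term2 ix q (sk 1 (sk 4 ι)) (sk 2 (sk 5 ι)) _ _ 0 2 0 2 (by decide) (by decide)
      (map_sk ι _ 4 1 (by decide)) (map_sk ι _ 5 2 (by decide)) (inter_map ι _ _ 0 3 (by decide)) rfl rfl
  have t7_4 : Q2t H ix q (({0, 2, 3, 5} : Finset (Fin 6)).map ι.toEmbedding) (({1, 2, 3, 4} : Finset (Fin 6)).map ι.toEmbedding) =
      q (ix 6 (c4 (e H (ι 0) (ι 2) (ι 3)) (e H (ι 0) (ι 2) (ι 5)) (e H (ι 0) (ι 3) (ι 5)) (e H (ι 2) (ι 3) (ι 5)))) (ix 6 (c4 (e H (ι 1) (ι 2) (ι 3)) (e H (ι 1) (ι 2) (ι 4)) (e H (ι 1) (ι 3) (ι 4)) (e H (ι 2) (ι 3) (ι 4)))) :=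
    term2 ix q (sk 1 (sk 4 ι)) (sk 0 (sk 5 ι)) _ _ 1 2 1 2 (by decide) (by decide)
      (map_sk ι _ 4 1 (by decide)) (map_sk ι _ 5 0 (by decide)) (inter_map ι _ _ 2 3 (by decide)) rfl rfl
  have t7_9 : Q2t H ix q (({0, 2, 3, 5} : Finset (Fin 6)).map ι.toEmbedding) (({0, 1, 4, 5} : Finset (Fin 6)).map ι.toEmbedding) =
      q (ix 9 (c4 (e H (ι 0) (ι 2) (ι 3)) (e H (ι 0) (ι 2) (ι 5)) (e H (ι 0) (ι 3) (ι 5)) (e H (ι 2) (ι 3) (ι 5)))) (ix 9 (c4 (e H (ι 0) (ι 1) (ι 4)) (e H (ι 0) (ι 1) (ι 5)) (e H (ι 0) (ι 4) (ι 5)) (e H (ι 1) (ι 4) (ι 5)))) :=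
    term2 ix q (sk 1 (sk 4 ι)) (sk 2 (sk 3 ι)) _ _ 0 3 0 3 (by decide) (by decide)
      (map_sk ι _ 4 1 (by decide)) (map_sk ι _ 3 2 (by decide)) (inter_map ι _ _ 0 5 (by decide)) rfl rfl
  have t7_11 : Q2t H ix q (({0, 2, 3, 5} : Finset (Fin 6)).map ι.toEmbedding) (({1, 2, 4, 5} : Finset (Fin 6)).map ι.toEmbedding) =
      q (ix 10 (c4 (e H (ι 0) (ι 2) (ι 3)) (e H (ι 0) (ι 2) (ι 5)) (e H (ι 0) (ι 3) (ι 5)) (e H (ι 2) (ι 3) (ι 5)))) (ix 10 (c4 (e H (ι 1) (ι 2) (ι 4)) (e H (ι 1) (ι 2) (ι 5)) (e H (ι 1) (ι 4) (ι 5)) (e H (ι 2) (ι 4) (ι 5)))) :=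
    term2 ix q (sk 1 (sk 4 ι)) (sk 0 (sk 3 ι)) _ _ 1 3 1 3 (by decide) (by decide)
      (map_sk ι _ 4 1 (by decide)) (map_sk ι _ 3 0 (by decide)) (inter_map ι _ _ 2 5 (by decide)) rfl rfl
  have t7_13 : Q2t H ix q (({0, 2, 3, 5} : Finset (Fin 6)).map ι.toEmbedding) (({1, 3, 4, 5} : Finset (Fin 6)).map ι.toEmbedding) =
      q (ix 12 (c4 (e H (ι 0) (ι 2) (ι 3)) (e H (ι 0) (ι 2) (ι 5)) (e H (ι 0) (ι 3) (ι 5)) (e H (ι 2) (ι 3) (ι 5)))) (ix 10 (c4 (e H (ι 1) (ι 3) (ι 4)) (e H (ι 1) (ι 3) (ι 5)) (e H (ι 1) (ι 4) (ι 5)) (e H (ι 3) (ι 4) (ι 5)))) :=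
    term2 ix q (sk 1 (sk 4 ι)) (sk 0 (sk 2 ι)) _ _ 2 3 1 3 (by decide) (by decide)
      (map_sk ι _ 4 1 (by decide)) (map_sk ι _ 2 0 (by decide)) (inter_map ι _ _ 3 5 (by decide)) rfl rfl
  have t8_1 : Q2t H ix q (({1, 2, 3, 5} : Finset (Fin 6)).map ι.toEmbedding) (({0, 1, 2, 4} : Finset (Fin 6)).map ι.toEmbedding) =
      q (ix 3 (c4 (e H (ι 1) (ι 2) (ι 3)) (e H (ι 1) (ι 2) (ι 5)) (e H (ι 1) (ι 3) (ι 5)) (e H (ι 2) (ι 3) (ι 5)))) (ix 6 (c4 (e H (ι 0) (ι 1) (ι 2)) (e H (ι 0) (ι 1) (ι 4)) (e H (ι 0) (ι 2) (ι 4)) (e H (ι 1) (ι 2) (ι 4)))) :=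
    term2 ix q (sk 0 (sk 4 ι)) (sk 3 (sk 5 ι)) _ _ 0 1 1 2 (by decide) (by decide)
      (map_sk ι _ 4 0 (by decide)) (map_sk ι _ 5 3 (by decide)) (inter_map ι _ _ 1 2 (by decide)) rfl rfl
  have t8_2 : Q2t H ix q (({1, 2, 3, 5} : Finset (Fin 6)).map ι.toEmbedding) (({0, 1, 3, 4} : Finset (Fin 6)).map ι.toEmbedding) =
      q (ix 5 (c4 (e H (ι 1) (ι 2) (ι 3)) (e H (ι 1) (ι 2) (ι 5)) (e H (ι 1) (ι 3) (ι 5)) (e H (ι 2) (ι 3) (ι 5)))) (ix 6 (c4 (e H (ι 0) (ι 1) (ι 3)) (e H (ι 0) (ι 1) (ι 4)) (e H (ι 0) (ι 3) (ι 4)) (e H (ι 1) (ι 3) (ι 4)))) :=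
    term2 ix q (sk 0 (sk 4 ι)) (sk 2 (sk 5 ι)) _ _ 0 2 1 2 (by decide) (by decide)
      (map_sk ι _ 4 0 (by decide)) (map_sk ι _ 5 2 (by decide)) (inter_map ι _ _ 1 3 (by decide)) rfl rfl
  have t8_3 : Q2t H ix q (({1, 2, 3, 5} : Finset (Fin 6)).map ι.toEmbedding) (({0, 2, 3, 4} : Finset (Fin 6)).map ι.toEmbedding) =
      q (ix 6 (c4 (e H (ι 1) (ι 2) (ι 3)) (e H (ι 1) (ι 2) (ι 5)) (e H (ι 1) (ι 3) (ι 5)) (e H (ι 2) (ι 3) (ι 5)))) (ix 6 (c4 (e H (ι 0) (ι 2) (ι 3)) (e H (ι 0) (ι 2) (ι 4)) (e H (ι 0) (ι 3) (ι 4)) (e H (ι 2) (ι 3) (ι 4)))) :=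
    term2 ix q (sk 0 (sk 4 ι)) (sk 1 (sk 5 ι)) _ _ 1 2 1 2 (by decide) (by decide)
      (map_sk ι _ 4 0 (by decide)) (map_sk ι _ 5 1 (by decide)) (inter_map ι _ _ 2 3 (by decide)) rfl rfl
  have t8_9 : Q2t H ix q (({1, 2, 3, 5} : Finset (Fin 6)).map ι.toEmbedding) (({0, 1, 4, 5} : Finset (Fin 6)).map ι.toEmbedding) =
      q (ix 9 (c4 (e H (ι 1) (ι 2) (ι 3)) (e H (ι 1) (ι 2) (ι 5)) (e H (ι 1) (ι 3) (ι 5)) (e H (ι 2) (ι 3) (ι 5)))) (ix 10 (c4 (e H (ι 0) (ι 1) (ι 4)) (e H (ι 0) (ι 1) (ι 5)) (e H (ι 0) (ι 4) (ι 5)) (e H (ι 1) (ι 4) (ι 5)))) :=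
    term2 ix q (sk 0 (sk 4 ι)) (sk 2 (sk 3 ι)) _ _ 0 3 1 3 (by decide) (by decide)
      (map_sk ι _ 4 0 (by decide)) (map_sk ι _ 3 2 (by decide)) (inter_map ι _ _ 1 5 (by decide)) rfl rfl
  have t8_10 : Q2t H ix q (({1, 2, 3, 5} : Finset (Fin 6)).map ι.toEmbedding) (({0, 2, 4, 5} : Finset (Fin 6)).map ι.toEmbedding) =
      q (ix 10 (c4 (e H (ι 1) (ι 2) (ι 3)) (e H (ι 1) (ι 2) (ι 5)) (e H (ι 1) (ι 3) (ι 5)) (e H (ι 2) (ι 3) (ι 5)))) (ix 10 (c4 (e H (ι 0) (ι 2) (ι 4)) (e H (ι 0) (ι 2) (ι 5)) (e H (ι 0) (ι 4) (ι 5)) (e H (ι 2) (ι 4) (ι 5)))) :=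
    term2 ix q (sk 0 (sk 4 ι)) (sk 1 (sk 3 ι)) _ _ 1 3 1 3 (by decide) (by decide)
      (map_sk ι _ 4 0 (by decide)) (map_sk ι _ 3 1 (by decide)) (inter_map ι _ _ 2 5 (by decide)) rfl rfl
  have t8_12 : Q2t H ix q (({1, 2, 3, 5} : Finset (Fin 6)).map ι.toEmbedding) (({0, 3, 4, 5} : Finset (Fin 6)).map ι.toEmbedding) =
      q (ix 12 (c4 (e H (ι 1) (ι 2) (ι 3)) (e H (ι 1) (ι 2) (ι 5)) (e H (ι 1) (ι 3) (ι 5)) (e H (ι 2) (ι 3) (ι 5)))) (ix 10 (c4 (e H (ι 0) (ι 3) (ι 4)) (e H (ι 0) (ι 3) (ι 5)) (e H (ι 0) (ι 4) (ι 5)) (e H (ι 3) (ι 4) (ι 5)))) :=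
    term2 ix q (sk 0 (sk 4 ι)) (sk 1 (sk 2 ι)) _ _ 2 3 1 3 (by decide) (by decide)
      (map_sk ι _ 4 0 (by decide)) (map_sk ι _ 2 1 (by decide)) (inter_map ι _ _ 3 5 (by decide)) rfl rfl
  have t9_0 : Q2t H ix q (({0, 1, 4, 5} : Finset (Fin 6)).map ι.toEmbedding) (({0, 1, 2, 3} : Finset (Fin 6)).map ι.toEmbedding) =
      q (ix 3 (c4 (e H (ι 0) (ι 1) (ι 4)) (e H (ι 0) (ι 1) (ι 5)) (e H (ι 0) (ι 4) (ι 5)) (e H (ι 1) (ι 4) (ι 5)))) (ix 3 (c4 (e H (ι 0) (ι 1) (ι 2)) (e H (ι 0) (ι 1) (ι 3)) (e H (ι 0) (ι 2) (ι 3)) (e H (ι 1) (ι 2) (ι 3)))) :=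
    term2 ix q (sk 2 (sk 3 ι)) (sk 4 (sk 5 ι)) _ _ 0 1 0 1 (by decide) (by decide)
      (map_sk ι _ 3 2 (by decide)) (map_sk ι _ 5 4 (by decide)) (inter_map ι _ _ 0 1 (by decide)) rfl rfl
  have t9_3 : Q2t H ix q (({0, 1, 4, 5} : Finset (Fin 6)).map ι.toEmbedding) (({0, 2, 3, 4} : Finset (Fin 6)).map ι.toEmbedding) =
      q (ix 5 (c4 (e H (ι 0) (ι 1) (ι 4)) (e H (ι 0) (ι 1) (ι 5)) (e H (ι 0) (ι 4) (ι 5)) (e H (ι 1) (ι 4) (ι 5)))) (ix 9 (c4 (e H (ι 0) (ι 2) (ι 3)) (e H (ι 0) (ι 2) (ι 4)) (e H (ι 0) (ι 3) (ι 4)) (e H (ι 2) (ι 3) (ι 4)))) :=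
    term2 ix q (sk 2 (sk 3 ι)) (sk 1 (sk 5 ι)) _ _ 0 2 0 3 (by decide) (by decide)
      (map_sk ι _ 3 2 (by decide)) (map_sk ι _ 5 1 (by decide)) (inter_map ι _ _ 0 4 (by decide)) rfl rfl
  have t9_4 : Q2t H ix q (({0, 1, 4, 5} : Finset (Fin 6)).map ι.toEmbedding) (({1, 2, 3, 4} : Finset (Fin 6)).map ι.toEmbedding) =
      q (ix 6 (c4 (e H (ι 0) (ι 1) (ι 4)) (e H (ι 0) (ι 1) (ι 5)) (e H (ι 0) (ι 4) (ι 5)) (e H (ι 1) (ι 4) (ι 5)))) (ix 9 (c4 (e H (ι 1) (ι 2) (ι 3)) (e H (ι 1) (ι 2) (ι 4)) (e H (ι 1) (ι 3) (ι 4)) (e H (ι 2) (ι 3) (ι 4)))) :=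
    term2 ix q (sk 2 (sk 3 ι)) (sk 0 (sk 5 ι)) _ _ 1 2 0 3 (by decide) (by decide)
      (map_sk ι _ 3 2 (by decide)) (map_sk ι _ 5 0 (by decide)) (inter_map ι _ _ 1 4 (by decide)) rfl rfl
  have t9_7 : Q2t H ix q (({0, 1, 4, 5} : Finset (Fin 6)).map ι.toEmbedding) (({0, 2, 3, 5} : Finset (Fin 6)).map ι.toEmbedding) =
      q (ix 9 (c4 (e H (ι 0) (ι 1) (ι 4)) (e H (ι 0) (ι 1) (ι 5)) (e H (ι 0) (ι 4) (ι 5)) (e H (ι 1) (ι 4) (ι 5)))) (ix 9 (c4 (e H (ι 0) (ι 2) (ι 3)) (e H (ι 0) (ι 2) (ι 5)) (e H (ι 0) (ι 3) (ι 5)) (e H (ι 2) (ι 3) (ι 5)))) :=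
    term2 ix q (sk 2 (sk 3 ι)) (sk 1 (sk 4 ι)) _ _ 0 3 0 3 (by decide) (by decide)
      (map_sk ι _ 3 2 (by decide)) (map_sk ι _ 4 1 (by decide)) (inter_map ι _ _ 0 5 (by decide)) rfl rfl
  have t9_8 : Q2t H ix q (({0, 1, 4, 5} : Finset (Fin 6)).map ι.toEmbedding) (({1, 2, 3, 5} : Finset (Fin 6)).map ι.toEmbedding) =
      q (ix 10 (c4 (e H (ι 0) (ι 1) (ι 4)) (e H (ι 0) (ι 1) (ι 5)) (e H (ι 0) (ι 4) (ι 5)) (e H (ι 1) (ι 4) (ι 5)))) (ix 9 (c4 (e H (ι 1) (ι 2) (ι 3)) (e H (ι 1) (ι 2) (ι 5)) (e H (ι 1) (ι 3) (ι 5)) (e H (ι 2) (ι 3) (ι 5)))) :=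
    term2 ix q (sk 2 (sk 3 ι)) (sk 0 (sk 4 ι)) _ _ 1 3 0 3 (by decide) (by decide)
      (map_sk ι _ 3 2 (by decide)) (map_sk ι _ 4 0 (by decide)) (inter_map ι _ _ 1 5 (by decide)) rfl rfl
  have t9_14 : Q2t H ix q (({0, 1, 4, 5} : Finset (Fin 6)).map ι.toEmbedding) (({2, 3, 4, 5} : Finset (Fin 6)).map ι.toEmbedding) =
      q (ix 12 (c4 (e H (ι 0) (ι 1) (ι 4)) (e H (ι 0) (ι 1) (ι 5)) (e H (ι 0) (ι 4) (ι 5)) (e H (ι 1) (ι 4) (ι 5)))) (ix 12 (c4 (e H (ι 2) (ι 3) (ι 4)) (e H (ι 2) (ι 3) (ι 5)) (e H (ι 2) (ι 4) (ι 5)) (e H (ι 3) (ι 4) (ι 5)))) :=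
    term2 ix q (sk 2 (sk 3 ι)) (sk 0 (sk 1 ι)) _ _ 2 3 2 3 (by decide) (by decide)
      (map_sk ι _ 3 2 (by decide)) (map_sk ι _ 1 0 (by decide)) (inter_map ι _ _ 4 5 (by decide)) rfl rfl
  have t10_0 : Q2t H ix q (({0, 2, 4, 5} : Finset (Fin 6)).map ι.toEmbedding) (({0, 1, 2, 3} : Finset (Fin 6)).map ι.toEmbedding) =
      q (ix 3 (c4 (e H (ι 0) (ι 2) (ι 4)) (e H (ι 0) (ι 2) (ι 5)) (e H (ι 0) (ι 4) (ι 5)) (e H (ι 2) (ι 4) (ι 5)))) (ix 5 (c4 (e H (ι 0) (ι 1) (ι 2)) (e H (ι 0) (ι 1) (ι 3)) (e H (ι 0) (ι 2) (ι 3)) (e H (ι 1) (ι 2) (ι 3)))) :=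
    term2 ix q (sk 1 (sk 3 ι)) (sk 4 (sk 5 ι)) _ _ 0 1 0 2 (by decide) (by decide)
      (map_sk ι _ 3 1 (by decide)) (map_sk ι _ 5 4 (by decide)) (inter_map ι _ _ 0 2 (by decide)) rfl rfl
  have t10_2 : Q2t H ix q (({0, 2, 4, 5} : Finset (Fin 6)).map ι.toEmbedding) (({0, 1, 3, 4} : Finset (Fin 6)).map ι.toEmbedding) =
      q (ix 5 (c4 (e H (ι 0) (ι 2) (ι 4)) (e H (ι 0) (ι 2) (ι 5)) (e H (ι 0) (ι 4) (ι 5)) (e H (ι 2) (ι 4) (ι 5)))) (ix 9 (c4 (e H (ι 0) (ι 1) (ι 3)) (e H (ι 0) (ι 1) (ι 4)) (e H (ι 0) (ι 3) (ι 4)) (e H (ι 1) (ι 3) (ι 4)))) :=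
    term2 ix q (sk 1 (sk 3 ι)) (sk 2 (sk 5 ι)) _ _ 0 2 0 3 (by decide) (by decide)
      (map_sk ι _ 3 1 (by decide)) (map_sk ι _ 5 2 (by decide)) (inter_map ι _ _ 0 4 (by decide)) rfl rfl
  have t10_4 : Q2t H ix q (({0, 2, 4, 5} : Finset (Fin 6)).map ι.toEmbedding) (({1, 2, 3, 4} : Finset (Fin 6)).map ι.toEmbedding) =
      q (ix 6 (c4 (e H (ι 0) (ι 2) (ι 4)) (e H (ι 0) (ι 2) (ι 5)) (e H (ι 0) (ι 4) (ι 5)) (e H (ι 2) (ι 4) (ι 5)))) (ix 10 (c4 (e H (ι 1) (ι 2) (ι 3)) (e H (ι 1) (ι 2) (ι 4)) (e H (ι 1) (ι 3) (ι 4)) (e H (ι 2) (ι 3) (ι 4)))) :=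
    term2 ix q (sk 1 (sk 3 ι)) (sk 0 (sk 5 ι)) _ _ 1 2 1 3 (by decide) (by decide)
      (map_sk ι _ 3 1 (by decide)) (map_sk ι _ 5 0 (by decide)) (inter_map ι _ _ 2 4 (by decide)) rfl rfl
  have t10_6 : Q2t H ix q (({0, 2, 4, 5} : Finset (Fin 6)).map ι.toEmbedding) (({0, 1, 3, 5} : Finset (Fin 6)).map ι.toEmbedding) =
      q (ix 9 (c4 (e H (ι 0) (ι 2) (ι 4)) (e H (ι 0) (ι 2) (ι 5)) (e H (ι 0) (ι 4) (ι 5)) (e H (ι 2) (ι 4) (ι 5)))) (ix 9 (c4 (e H (ι 0) (ι 1) (ι 3)) (e H (ι 0) (ι 1) (ι 5)) (e H (ι 0) (ι 3) (ι 5)) (e H (ι 1) (ι 3) (ι 5)))) :=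
    term2 ix q (sk 1 (sk 3 ι)) (sk 2 (sk 4 ι)) _ _ 0 3 0 3 (by decide) (by decide)
      (map_sk ι _ 3 1 (by decide)) (map_sk ι _ 4 2 (by decide)) (inter_map ι _ _ 0 5 (by decide)) rfl rfl
  have t10_8 : Q2t H ix q (({0, 2, 4, 5} : Finset (Fin 6)).map ι.toEmbedding) (({1, 2, 3, 5} : Finset (Fin 6)).map ι.toEmbedding) =
      q (ix 10 (c4 (e H (ι 0) (ι 2) (ι 4)) (e H (ι 0) (ι 2) (ι 5)) (e H (ι 0) (ι 4) (ι 5)) (e H (ι 2) (ι 4) (ι 5)))) (ix 10 (c4 (e H (ι 1) (ι 2) (ι 3)) (e H (ι 1) (ι 2) (ι 5)) (e H (ι 1) (ι 3) (ι 5)) (e H (ι 2) (ι 3) (ι 5)))) :=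
    term2 ix q (sk 1 (sk 3 ι)) (sk 0 (sk 4 ι)) _ _ 1 3 1 3 (by decide) (by decide)
      (map_sk ι _ 3 1 (by decide)) (map_sk ι _ 4 0 (by decide)) (inter_map ι _ _ 2 5 (by decide)) rfl rfl
  have t10_13 : Q2t H ix q (({0, 2, 4, 5} : Finset (Fin 6)).map ι.toEmbedding) (({1, 3, 4, 5} : Finset (Fin 6)).map ι.toEmbedding) =
      q (ix 12 (c4 (e H (ι 0) (ι 2) (ι 4)) (e H (ι 0) (ι 2) (ι 5)) (e H (ι 0) (ι 4) (ι 5)) (e H (ι 2) (ι 4) (ι 5)))) (ix 12 (c4 (e H (ι 1) (ι 3) (ι 4)) (e H (ι 1) (ι 3) (ι 5)) (e H (ι 1) (ι 4) (ι 5)) (e H (ι 3) (ι 4) (ι 5)))) :=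
    term2 ix q (sk 1 (sk 3 ι)) (sk 0 (sk 2 ι)) _ _ 2 3 2 3 (by decide) (by decide)
      (map_sk ι _ 3 1 (by decide)) (map_sk ι _ 2 0 (by decide)) (inter_map ι _ _ 4 5 (by decide)) rfl rfl
  have t11_0 : Q2t H ix q (({1, 2, 4, 5} : Finset (Fin 6)).map ι.toEmbedding) (({0, 1, 2, 3} : Finset (Fin 6)).map ι.toEmbedding) =
      q (ix 3 (c4 (e H (ι 1) (ι 2) (ι 4)) (e H (ι 1) (ι 2) (ι 5)) (e H (ι 1) (ι 4) (ι 5)) (e H (ι 2) (ι 4) (ι 5)))) (ix 6 (c4 (e H (ι 0) (ι 1) (ι 2)) (e H (ι 0) (ι 1) (ι 3)) (e H (ι 0) (ι 2) (ι 3)) (e H (ι 1) (ι 2) (ι 3)))) :=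
    term2 ix q (sk 0 (sk 3 ι)) (sk 4 (sk 5 ι)) _ _ 0 1 1 2 (by decide) (by decide)
      (map_sk ι _ 3 0 (by decide)) (map_sk ι _ 5 4 (by decide)) (inter_map ι _ _ 1 2 (by decide)) rfl rfl
  have t11_2 : Q2t H ix q (({1, 2, 4, 5} : Finset (Fin 6)).map ι.toEmbedding) (({0, 1, 3, 4} : Finset (Fin 6)).map ι.toEmbedding) =
      q (ix 5 (c4 (e H (ι 1) (ι 2) (ι 4)) (e H (ι 1) (ι 2) (ι 5)) (e H (ι 1) (ι 4) (ι 5)) (e H (ι 2) (ι 4) (ι 5)))) (ix 10 (c4 (e H (ι 0) (ι 1) (ι 3)) (e H (ι 0) (ι 1) (ι 4)) (e H (ι 0) (ι 3) (ι 4)) (e H (ι 1) (ι 3) (ι 4)))) :=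
    term2 ix q (sk 0 (sk 3 ι)) (sk 2 (sk 5 ι)) _ _ 0 2 1 3 (by decide) (by decide)
      (map_sk ι _ 3 0 (by decide)) (map_sk ι _ 5 2 (by decide)) (inter_map ι _ _ 1 4 (by decide)) rfl rfl
  have t11_3 : Q2t H ix q (({1, 2, 4, 5} : Finset (Fin 6)).map ι.toEmbedding) (({0, 2, 3, 4} : Finset (Fin 6)).map ι.toEmbedding) =
      q (ix 6 (c4 (e H (ι 1) (ι 2) (ι 4)) (e H (ι 1) (ι 2) (ι 5)) (e H (ι 1) (ι 4) (ι 5)) (e H (ι 2) (ι 4) (ι 5)))) (ix 10 (c4 (e H (ι 0) (ι 2) (ι 3)) (e H (ι 0) (ι 2) (ι 4)) (e H (ι 0) (ι 3) (ι 4)) (e H (ι 2) (ι 3) (ι 4)))) :=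
    term2 ix q (sk 0 (sk 3 ι)) (sk 1 (sk 5 ι)) _ _ 1 2 1 3 (by decide) (by decide)
      (map_sk ι _ 3 0 (by decide)) (map_sk ι _ 5 1 (by decide)) (inter_map ι _ _ 2 4 (by decide)) rfl rfl
  have t11_6 : Q2t H ix q (({1, 2, 4, 5} : Finset (Fin 6)).map ι.toEmbedding) (({0, 1, 3, 5} : Finset (Fin 6)).map ι.toEmbedding) =
      q (ix 9 (c4 (e H (ι 1) (ι 2) (ι 4)) (e H (ι 1) (ι 2) (ι 5)) (e H (ι 1) (ι 4) (ι 5)) (e H (ι 2) (ι 4) (ι 5)))) (ix 10 (c4 (e H (ι 0) (ι 1) (ι 3)) (e H (ι 0) (ι 1) (ι 5)) (e H (ι 0) (ι 3) (ι 5)) (e H (ι 1) (ι 3) (ι 5)))) :=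
    term2 ix q (sk 0 (sk 3 ι)) (sk 2 (sk 4 ι)) _ _ 0 3 1 3 (by decide) (by decide)
      (map_sk ι _ 3 0 (by decide)) (map_sk ι _ 4 2 (by decide)) (inter_map ι _ _ 1 5 (by decide)) rfl rfl
  have t11_7 : Q2t H ix q (({1, 2, 4, 5} : Finset (Fin 6)).map ι.toEmbedding) (({0, 2, 3, 5} : Finset (Fin 6)).map ι.toEmbedding) =
      q (ix 10 (c4 (e H (ι 1) (ι 2) (ι 4)) (e H (ι 1) (ι 2) (ι 5)) (e H (ι 1) (ι 4) (ι 5)) (e H (ι 2) (ι 4) (ι 5)))) (ix 10 (c4 (e H (ι 0) (ι 2) (ι 3)) (e H (ι 0) (ι 2) (ι 5)) (e H (ι 0) (ι 3) (ι 5)) (e H (ι 2) (ι 3) (ι 5)))) :=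
    term2 ix q (sk 0 (sk 3 ι)) (sk 1 (sk 4 ι)) _ _ 1 3 1 3 (by decide) (by decide)
      (map_sk ι _ 3 0 (by decide)) (map_sk ι _ 4 1 (by decide)) (inter_map ι _ _ 2 5 (by decide)) rfl rfl
  have t11_12 : Q2t H ix q (({1, 2, 4, 5} : Finset (Fin 6)).map ι.toEmbedding) (({0, 3, 4, 5} : Finset (Fin 6)).map ι.toEmbedding) =
      q (ix 12 (c4 (e H (ι 1) (ι 2) (ι 4)) (e H (ι 1) (ι 2) (ι 5)) (e H (ι 1) (ι 4) (ι 5)) (e H (ι 2) (ι 4) (ι 5)))) (ix 12 (c4 (e H (ι 0) (ι 3) (ι 4)) (e H (ι 0) (ι 3) (ι 5)) (e H (ι 0) (ι 4) (ι 5)) (e H (ι 3) (ι 4) (ι 5)))) :=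
    term2 ix q (sk 0 (sk 3 ι)) (sk 1 (sk 2 ι)) _ _ 2 3 2 3 (by decide) (by decide)
      (map_sk ι _ 3 0 (by decide)) (map_sk ι _ 2 1 (by decide)) (inter_map ι _ _ 4 5 (by decide)) rfl rfl
  have t12_0 : Q2t H ix q (({0, 3, 4, 5} : Finset (Fin 6)).map ι.toEmbedding) (({0, 1, 2, 3} : Finset (Fin 6)).map ι.toEmbedding) =
      q (ix 3 (c4 (e H (ι 0) (ι 3) (ι 4)) (e H (ι 0) (ι 3) (ι 5)) (e H (ι 0) (ι 4) (ι 5)) (e H (ι 3) (ι 4) (ι 5)))) (ix 9 (c4 (e H (ι 0) (ι 1) (ι 2)) (e H (ι 0) (ι 1) (ι 3)) (e H (ι 0) (ι 2) (ι 3)) (e H (ι 1) (ι 2) (ι 3)))) :=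
    term2 ix q (sk 1 (sk 2 ι)) (sk 4 (sk 5 ι)) _ _ 0 1 0 3 (by decide) (by decide)
      (map_sk ι _ 2 1 (by decide)) (map_sk ι _ 5 4 (by decide)) (inter_map ι _ _ 0 3 (by decide)) rfl rfl
  have t12_1 : Q2t H ix q (({0, 3, 4, 5} : Finset (Fin 6)).map ι.toEmbedding) (({0, 1, 2, 4} : Finset (Fin 6)).map ι.toEmbedding) =
      q (ix 5 (c4 (e H (ι 0) (ι 3) (ι 4)) (e H (ι 0) (ι 3) (ι 5)) (e H (ι 0) (ι 4) (ι 5)) (e H (ι 3) (ι 4) (ι 5)))) (ix 9 (c4 (e H (ι 0) (ι 1) (ι 2)) (e H (ι 0) (ι 1) (ι 4)) (e H (ι 0) (ι 2) (ι 4)) (e H (ι 1) (ι 2) (ι 4)))) :=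
    term2 ix q (sk 1 (sk 2 ι)) (sk 3 (sk 5 ι)) _ _ 0 2 0 3 (by decide) (by decide)
      (map_sk ι _ 2 1 (by decide)) (map_sk ι _ 5 3 (by decide)) (inter_map ι _ _ 0 4 (by decide)) rfl rfl
  have t12_4 : Q2t H ix q (({0, 3, 4, 5} : Finset (Fin 6)).map ι.toEmbedding) (({1, 2, 3, 4} : Finset (Fin 6)).map ι.toEmbedding) =
      q (ix 6 (c4 (e H (ι 0) (ι 3) (ι 4)) (e H (ι 0) (ι 3) (ι 5)) (e H (ι 0) (ι 4) (ι 5)) (e H (ι 3) (ι 4) (ι 5)))) (ix 12 (c4 (e H (ι 1) (ι 2) (ι 3)) (e H (ι 1) (ι 2) (ι 4)) (e H (ι 1) (ι 3) (ι 4)) (e H (ι 2) (ι 3) (ι 4)))) :=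
    term2 ix q (sk 1 (sk 2 ι)) (sk 0 (sk 5 ι)) _ _ 1 2 2 3 (by decide) (by decide)
      (map_sk ι _ 2 1 (by decide)) (map_sk ι _ 5 0 (by decide)) (inter_map ι _ _ 3 4 (by decide)) rfl rfl
  have t12_5 : Q2t H ix q (({0, 3, 4, 5} : Finset (Fin 6)).map ι.toEmbedding) (({0, 1, 2, 5} : Finset (Fin 6)).map ι.toEmbedding) =
      q (ix 9 (c4 (e H (ι 0) (ι 3) (ι 4)) (e H (ι 0) (ι 3) (ι 5)) (e H (ι 0) (ι 4) (ι 5)) (e H (ι 3) (ι 4) (ι 5)))) (ix 9 (c4 (e H (ι 0) (ι 1) (ι 2)) (e H (ι 0) (ι 1) (ι 5)) (e H (ι 0) (ι 2) (ι 5)) (e H (ι 1) (ι 2) (ι 5)))) :=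
    term2 ix q (sk 1 (sk 2 ι)) (sk 3 (sk 4 ι)) _ _ 0 3 0 3 (by decide) (by decide)
      (map_sk ι _ 2 1 (by decide)) (map_sk ι _ 4 3 (by decide)) (inter_map ι _ _ 0 5 (by decide)) rfl rfl
  have t12_8 : Q2t H ix q (({0, 3, 4, 5} : Finset (Fin 6)).map ι.toEmbedding) (({1, 2, 3, 5} : Finset (Fin 6)).map ι.toEmbedding) =
      q (ix 10 (c4 (e H (ι 0) (ι 3) (ι 4)) (e H (ι 0) (ι 3) (ι 5)) (e H (ι 0) (ι 4) (ι 5)) (e H (ι 3) (ι 4) (ι 5)))) (ix 12 (c4 (e H (ι 1) (ι 2) (ι 3)) (e H (ι 1) (ι 2) (ι 5)) (e H (ι 1) (ι 3) (ι 5)) (e H (ι 2) (ι 3) (ι 5)))) :=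
    term2 ix q (sk 1 (sk 2 ι)) (sk 0 (sk 4 ι)) _ _ 1 3 2 3 (by decide) (by decide)
      (map_sk ι _ 2 1 (by decide)) (map_sk ι _ 4 0 (by decide)) (inter_map ι _ _ 3 5 (by decide)) rfl rfl
  have t12_11 : Q2t H ix q (({0, 3, 4, 5} : Finset (Fin 6)).map ι.toEmbedding) (({1, 2, 4, 5} : Finset (Fin 6)).map ι.toEmbedding) =
      q (ix 12 (c4 (e H (ι 0) (ι 3) (ι 4)) (e H (ι 0) (ι 3) (ι 5)) (e H (ι 0) (ι 4) (ι 5)) (e H (ι 3) (ι 4) (ι 5)))) (ix 12 (c4 (e H (ι 1) (ι 2) (ι 4)) (e H (ι 1) (ι 2) (ι 5)) (e H (ι 1) (ι 4) (ι 5)) (e H (ι 2) (ι 4) (ι 5)))) :=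
    term2 ix q (sk 1 (sk 2 ι)) (sk 0 (sk 3 ι)) _ _ 2 3 2 3 (by decide) (by decide)
      (map_sk ι _ 2 1 (by decide)) (map_sk ι _ 3 0 (by decide)) (inter_map ι _ _ 4 5 (by decide)) rfl rfl
  have t13_0 : Q2t H ix q (({1, 3, 4, 5} : Finset (Fin 6)).map ι.toEmbedding) (({0, 1, 2, 3} : Finset (Fin 6)).map ι.toEmbedding) =
      q (ix 3 (c4 (e H (ι 1) (ι 3) (ι 4)) (e H (ι 1) (ι 3) (ι 5)) (e H (ι 1) (ι 4) (ι 5)) (e H (ι 3) (ι 4) (ι 5)))) (ix 10 (c4 (e H (ι 0) (ι 1) (ι 2)) (e H (ι 0) (ι 1) (ι 3)) (e H (ι 0) (ι 2) (ι 3)) (e H (ι 1) (ι 2) (ι 3)))) :=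
    term2 ix q (sk 0 (sk 2 ι)) (sk 4 (sk 5 ι)) _ _ 0 1 1 3 (by decide) (by decide)
      (map_sk ι _ 2 0 (by decide)) (map_sk ι _ 5 4 (by decide)) (inter_map ι _ _ 1 3 (by decide)) rfl rfl
  have t13_1 : Q2t H ix q (({1, 3, 4, 5} : Finset (Fin 6)).map ι.toEmbedding) (({0, 1, 2, 4} : Finset (Fin 6)).map ι.toEmbedding) =
      q (ix 5 (c4 (e H (ι 1) (ι 3) (ι 4)) (e H (ι 1) (ι 3) (ι 5)) (e H (ι 1) (ι 4) (ι 5)) (e H (ι 3) (ι 4) (ι 5)))) (ix 10 (c4 (e H (ι 0) (ι 1) (ι 2)) (e H (ι 0) (ι 1) (ι 4)) (e H (ι 0) (ι 2) (ι 4)) (e H (ι 1) (ι 2) (ι 4)))) :=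
    term2 ix q (sk 0 (sk 2 ι)) (sk 3 (sk 5 ι)) _ _ 0 2 1 3 (by decide) (by decide)
      (map_sk ι _ 2 0 (by decide)) (map_sk ι _ 5 3 (by decide)) (inter_map ι _ _ 1 4 (by decide)) rfl rfl
  have t13_3 : Q2t H ix q (({1, 3, 4, 5} : Finset (Fin 6)).map ι.toEmbedding) (({0, 2, 3, 4} : Finset (Fin 6)).map ι.toEmbedding) =
      q (ix 6 (c4 (e H (ι 1) (ι 3) (ι 4)) (e H (ι 1) (ι 3) (ι 5)) (e H (ι 1) (ι 4) (ι 5)) (e H (ι 3) (ι 4) (ι 5)))) (ix 12 (c4 (e H (ι 0) (ι 2) (ι 3)) (e H (ι 0) (ι 2) (ι 4)) (e H (ι 0) (ι 3) (ι 4)) (e H (ι 2) (ι 3) (ι 4)))) :=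
    term2 ix q (sk 0 (sk 2 ι)) (sk 1 (sk 5 ι)) _ _ 1 2 2 3 (by decide) (by decide)
      (map_sk ι _ 2 0 (by decide)) (map_sk ι _ 5 1 (by decide)) (inter_map ι _ _ 3 4 (by decide)) rfl rfl
  have t13_5 : Q2t H ix q (({1, 3, 4, 5} : Finset (Fin 6)).map ι.toEmbedding) (({0, 1, 2, 5} : Finset (Fin 6)).map ι.toEmbedding) =
      q (ix 9 (c4 (e H (ι 1) (ι 3) (ι 4)) (e H (ι 1) (ι 3) (ι 5)) (e H (ι 1) (ι 4) (ι 5)) (e H (ι 3) (ι 4) (ι 5)))) (ix 10 (c4 (e H (ι 0) (ι 1) (ι 2)) (e H (ι 0) (ι 1) (ι 5)) (e H (ι 0) (ι 2) (ι 5)) (e H (ι 1) (ι 2) (ι 5)))) :=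
    term2 ix q (sk 0 (sk 2 ι)) (sk 3 (sk 4 ι)) _ _ 0 3 1 3 (by decide) (by decide)
      (map_sk ι _ 2 0 (by decide)) (map_sk ι _ 4 3 (by decide)) (inter_map ι _ _ 1 5 (by decide)) rfl rfl
  have t13_7 : Q2t H ix q (({1, 3, 4, 5} : Finset (Fin 6)).map ι.toEmbedding) (({0, 2, 3, 5} : Finset (Fin 6)).map ι.toEmbedding) =
      q (ix 10 (c4 (e H (ι 1) (ι 3) (ι 4)) (e H (ι 1) (ι 3) (ι 5)) (e H (ι 1) (ι 4) (ι 5)) (e H (ι 3) (ι 4) (ι 5)))) (ix 12 (c4 (e H (ι 0) (ι 2) (ι 3)) (e H (ι 0) (ι 2) (ι 5)) (e H (ι 0) (ι 3) (ι 5)) (e H (ι 2) (ι 3) (ι 5)))) :=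
    term2 ix q (sk 0 (sk 2 ι)) (sk 1 (sk 4 ι)) _ _ 1 3 2 3 (by decide) (by decide)
      (map_sk ι _ 2 0 (by decide)) (map_sk ι _ 4 1 (by decide)) (inter_map ι _ _ 3 5 (by decide)) rfl rfl
  have t13_10 : Q2t H ix q (({1, 3, 4, 5} : Finset (Fin 6)).map ι.toEmbedding) (({0, 2, 4, 5} : Finset (Fin 6)).map ι.toEmbedding) =
      q (ix 12 (c4 (e H (ι 1) (ι 3) (ι 4)) (e H (ι 1) (ι 3) (ι 5)) (e H (ι 1) (ι 4) (ι 5)) (e H (ι 3) (ι 4) (ι 5)))) (ix 12 (c4 (e H (ι 0) (ι 2) (ι 4)) (e H (ι 0) (ι 2) (ι 5)) (e H (ι 0) (ι 4) (ι 5)) (e H (ι 2) (ι 4) (ι 5)))) :=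
    term2 ix q (sk 0 (sk 2 ι)) (sk 1 (sk 3 ι)) _ _ 2 3 2 3 (by decide) (by decide)
      (map_sk ι _ 2 0 (by decide)) (map_sk ι _ 3 1 (by decide)) (inter_map ι _ _ 4 5 (by decide)) rfl rfl
  have t14_0 : Q2t H ix q (({2, 3, 4, 5} : Finset (Fin 6)).map ι.toEmbedding) (({0, 1, 2, 3} : Finset (Fin 6)).map ι.toEmbedding) =
      q (ix 3 (c4 (e H (ι 2) (ι 3) (ι 4)) (e H (ι 2) (ι 3) (ι 5)) (e H (ι 2) (ι 4) (ι 5)) (e H (ι 3) (ι 4) (ι 5)))) (ix 12 (c4 (e H (ι 0) (ι 1) (ι 2)) (e H (ι 0) (ι 1) (ι 3)) (e H (ι 0) (ι 2) (ι 3)) (e H (ι 1) (ι 2) (ι 3)))) :=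
    term2 ix q (sk 0 (sk 1 ι)) (sk 4 (sk 5 ι)) _ _ 0 1 2 3 (by decide) (by decide)
      (map_sk ι _ 1 0 (by decide)) (map_sk ι _ 5 4 (by decide)) (inter_map ι _ _ 2 3 (by decide)) rfl rfl
  have t14_1 : Q2t H ix q (({2, 3, 4, 5} : Finset (Fin 6)).map ι.toEmbedding) (({0, 1, 2, 4} : Finset (Fin 6)).map ι.toEmbedding) =
      q (ix 5 (c4 (e H (ι 2) (ι 3) (ι 4)) (e H (ι 2) (ι 3) (ι 5)) (e H (ι 2) (ι 4) (ι 5)) (e H (ι 3) (ι 4) (ι 5)))) (ix 12 (c4 (e H (ι 0) (ι 1) (ι 2)) (e H (ι 0) (ι 1) (ι 4)) (e H (ι 0) (ι 2) (ι 4)) (e H (ι 1) (ι 2) (ι 4)))) :=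
    term2 ix q (sk 0 (sk 1 ι)) (sk 3 (sk 5 ι)) _ _ 0 2 2 3 (by decide) (by decide)
      (map_sk ι _ 1 0 (by decide)) (map_sk ι _ 5 3 (by decide)) (inter_map ι _ _ 2 4 (by decide)) rfl rfl
  have t14_2 : Q2t H ix q (({2, 3, 4, 5} : Finset (Fin 6)).map ι.toEmbedding) (({0, 1, 3, 4} : Finset (Fin 6)).map ι.toEmbedding) =
      q (ix 6 (c4 (e H (ι 2) (ι 3) (ι 4)) (e H (ι 2) (ι 3) (ι 5)) (e H (ι 2) (ι 4) (ι 5)) (e H (ι 3) (ι 4) (ι 5)))) (ix 12 (c4 (e H (ι 0) (ι 1) (ι 3)) (e H (ι 0) (ι 1) (ι 4)) (e H (ι 0) (ι 3) (ι 4)) (e H (ι 1) (ι 3) (ι 4)))) :=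
    term2 ix q (sk 0 (sk 1 ι)) (sk 2 (sk 5 ι)) _ _ 1 2 2 3 (by decide) (by decide)
      (map_sk ι _ 1 0 (by decide)) (map_sk ι _ 5 2 (by decide)) (inter_map ι _ _ 3 4 (by decide)) rfl rfl
  have t14_5 : Q2t H ix q (({2, 3, 4, 5} : Finset (Fin 6)).map ι.toEmbedding) (({0, 1, 2, 5} : Finset (Fin 6)).map ι.toEmbedding) =
      q (ix 9 (c4 (e H (ι 2) (ι 3) (ι 4)) (e H (ι 2) (ι 3) (ι 5)) (e H (ι 2) (ι 4) (ι 5)) (e H (ι 3) (ι 4) (ι 5)))) (ix 12 (c4 (e H (ι 0) (ι 1) (ι 2)) (e H (ι 0) (ι 1) (ι 5)) (e H (ι 0) (ι 2) (ι 5)) (e H (ι 1) (ι 2) (ι 5)))) :=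
    term2 ix q (sk 0 (sk 1 ι)) (sk 3 (sk 4 ι)) _ _ 0 3 2 3 (by decide) (by decide)
      (map_sk ι _ 1 0 (by decide)) (map_sk ι _ 4 3 (by decide)) (inter_map ι _ _ 2 5 (by decide)) rfl rfl
  have t14_6 : Q2t H ix q (({2, 3, 4, 5} : Finset (Fin 6)).map ι.toEmbedding) (({0, 1, 3, 5} : Finset (Fin 6)).map ι.toEmbedding) =
      q (ix 10 (c4 (e H (ι 2) (ι 3) (ι 4)) (e H (ι 2) (ι 3) (ι 5)) (e H (ι 2) (ι 4) (ι 5)) (e H (ι 3) (ι 4) (ι 5)))) (ix 12 (c4 (e H (ι 0) (ι 1) (ι 3)) (e H (ι 0) (ι 1) (ι 5)) (e H (ι 0) (ι 3) (ι 5)) (e H (ι 1) (ι 3) (ι 5)))) :=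
    term2 ix q (sk 0 (sk 1 ι)) (sk 2 (sk 4 ι)) _ _ 1 3 2 3 (by decide) (by decide)
      (map_sk ι _ 1 0 (by decide)) (map_sk ι _ 4 2 (by decide)) (inter_map ι _ _ 3 5 (by decide)) rfl rfl
  have t14_9 : Q2t H ix q (({2, 3, 4, 5} : Finset (Fin 6)).map ι.toEmbedding) (({0, 1, 4, 5} : Finset (Fin 6)).map ι.toEmbedding) =
      q (ix 12 (c4 (e H (ι 2) (ι 3) (ι 4)) (e H (ι 2) (ι 3) (ι 5)) (e H (ι 2) (ι 4) (ι 5)) (e H (ι 3) (ι 4) (ι 5)))) (ix 12 (c4 (e H (ι 0) (ι 1) (ι 4)) (e H (ι 0) (ι 1) (ι 5)) (e H (ι 0) (ι 4) (ι 5)) (e H (ι 1) (ι 4) (ι 5)))) :=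
    term2 ix q (sk 0 (sk 1 ι)) (sk 2 (sk 3 ι)) _ _ 2 3 2 3 (by decide) (by decide)
      (map_sk ι _ 1 0 (by decide)) (map_sk ι _ 3 2 (by decide)) (inter_map ι _ _ 4 5 (by decide)) rfl rfl
  rw [t0_9, t0_10, t0_11, t0_12, t0_13, t0_14, t1_6, t1_7, t1_8, t1_12, t1_13, t1_14, t2_5, t2_7, t2_8, t2_10, t2_11, t2_14, t3_5, t3_6, t3_8, t3_9, t3_11, t3_13, t4_5, t4_6, t4_7, t4_9, t4_10, t4_12, t5_2, t5_3, t5_4, t5_12, t5_13, t5_14, t6_1, t6_3, t6_4, t6_10, t6_11, t6_14, t7_1, t7_2, t7_4, t7_9, t7_11, t7_13, t8_1, t8_2, t8_3, t8_9, t8_10, t8_12, t9_0, t9_3, t9_4, t9_7, t9_8, t9_14, t10_0, t10_2, t10_4, t10_6, t10_8, t10_13, t11_0, t11_2, t11_3, t11_6, t11_7, t11_12, t12_0, t12_1, t12_4, t12_5, t12_8, t12_11, t13_0, t13_1, t13_3, t13_5, t13_7, t13_10, t14_0, t14_1,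 t14_2, t14_5, t14_6, t14_9]
  have s0_9 := hq (ix 3 (c4 (e H (ι 0) (ι 1) (ι 4)) (e H (ι 0) (ι 1) (ι 5)) (e H (ι 0) (ι 4) (ι 5)) (e H (ι 1) (ι 4) (ι 5)))) (ix 3 (c4 (e H (ι 0) (ι 1) (ι 2)) (e H (ι 0) (ι 1) (ι 3)) (e H (ι 0) (ι 2) (ι 3)) (e H (ι 1) (ι 2) (ι 3))))
  have s0_10 := hq (ix 3 (c4 (e H (ι 0) (ι 2) (ι 4)) (e H (ι 0) (ι 2) (ι 5)) (e H (ι 0) (ι 4) (ι 5)) (e H (ι 2) (ι 4) (ι 5)))) (ix 5 (c4 (e H (ι 0) (ι 1) (ι 2)) (e H (ι 0) (ι 1) (ι 3)) (e H (ι 0) (ι 2) (ι 3)) (e H (ι 1) (ι 2) (ι 3))))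
  have s0_11 := hq (ix 3 (c4 (e H (ι 1) (ι 2) (ι 4)) (e H (ι 1) (ι 2) (ι 5)) (e H (ι 1) (ι 4) (ι 5)) (e H (ι 2) (ι 4) (ι 5)))) (ix 6 (c4 (e H (ι 0) (ι 1) (ι 2)) (e H (ι 0) (ι 1) (ι 3)) (e H (ι 0) (ι 2) (ι 3)) (e H (ι 1) (ι 2) (ι 3))))
  have s0_12 := hq (ix 3 (c4 (e H (ι 0) (ι 3) (ι 4)) (e H (ι 0) (ι 3) (ι 5)) (e H (ι 0) (ι 4) (ι 5)) (e H (ι 3) (ι 4) (ι 5)))) (ix 9 (c4 (e H (ι 0) (ι 1) (ι 2)) (e H (ι 0) (ι 1) (ι 3)) (e H (ι 0) (ι 2) (ι 3)) (e H (ι 1) (ι 2) (ι 3))))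
  have s0_13 := hq (ix 3 (c4 (e H (ι 1) (ι 3) (ι 4)) (e H (ι 1) (ι 3) (ι 5)) (e H (ι 1) (ι 4) (ι 5)) (e H (ι 3) (ι 4) (ι 5)))) (ix 10 (c4 (e H (ι 0) (ι 1) (ι 2)) (e H (ι 0) (ι 1) (ι 3)) (e H (ι 0) (ι 2) (ι 3)) (e H (ι 1) (ι 2) (ι 3))))
  have s0_14 := hq (ix 3 (c4 (e H (ι 2) (ι 3) (ι 4)) (e H (ι 2) (ι 3) (ι 5)) (e H (ι 2) (ι 4) (ι 5)) (e H (ι 3) (ι 4) (ι 5)))) (ix 12 (c4 (e H (ι 0) (ι 1) (ι 2)) (e H (ι 0) (ι 1) (ι 3)) (e H (ι 0) (ι 2) (ι 3)) (e H (ι 1) (ι 2) (ι 3))))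
  have s1_6 := hq (ix 3 (c4 (e H (ι 0) (ι 1) (ι 3)) (e H (ι 0) (ι 1) (ι 5)) (e H (ι 0) (ι 3) (ι 5)) (e H (ι 1) (ι 3) (ι 5)))) (ix 3 (c4 (e H (ι 0) (ι 1) (ι 2)) (e H (ι 0) (ι 1) (ι 4)) (e H (ι 0) (ι 2) (ι 4)) (e H (ι 1) (ι 2) (ι 4))))
  have s1_7 := hq (ix 3 (c4 (e H (ι 0) (ι 2) (ι 3)) (e H (ι 0) (ι 2) (ι 5)) (e H (ι 0) (ι 3) (ι 5)) (e H (ι 2) (ι 3) (ι 5)))) (ix 5 (c4 (e H (ι 0) (ι 1) (ι 2)) (e H (ι 0) (ι 1) (ι 4)) (e H (ι 0) (ι 2) (ι 4)) (e H (ι 1) (ι 2) (ι 4))))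
  have s1_8 := hq (ix 3 (c4 (e H (ι 1) (ι 2) (ι 3)) (e H (ι 1) (ι 2) (ι 5)) (e H (ι 1) (ι 3) (ι 5)) (e H (ι 2) (ι 3) (ι 5)))) (ix 6 (c4 (e H (ι 0) (ι 1) (ι 2)) (e H (ι 0) (ι 1) (ι 4)) (e H (ι 0) (ι 2) (ι 4)) (e H (ι 1) (ι 2) (ι 4))))
  have s1_12 := hq (ix 5 (c4 (e H (ι 0) (ι 3) (ι 4)) (e H (ι 0) (ι 3) (ι 5)) (e H (ι 0) (ι 4) (ι 5)) (e H (ι 3) (ι 4) (ι 5)))) (ix 9 (c4 (e H (ι 0) (ι 1) (ι 2)) (e H (ι 0) (ι 1) (ι 4)) (e H (ι 0) (ι 2) (ι 4)) (e H (ι 1) (ι 2) (ι 4))))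
  have s1_13 := hq (ix 5 (c4 (e H (ι 1) (ι 3) (ι 4)) (e H (ι 1) (ι 3) (ι 5)) (e H (ι 1) (ι 4) (ι 5)) (e H (ι 3) (ι 4) (ι 5)))) (ix 10 (c4 (e H (ι 0) (ι 1) (ι 2)) (e H (ι 0) (ι 1) (ι 4)) (e H (ι 0) (ι 2) (ι 4)) (e H (ι 1) (ι 2) (ι 4))))
  have s1_14 := hq (ix 5 (c4 (e H (ι 2) (ι 3) (ι 4)) (e H (ι 2) (ι 3) (ι 5)) (e H (ι 2) (ι 4) (ι 5)) (e H (ι 3) (ι 4) (ι 5)))) (ix 12 (c4 (e H (ι 0) (ι 1) (ι 2)) (e H (ι 0) (ι 1) (ι 4)) (e H (ι 0) (ι 2) (ι 4)) (e H (ι 1) (ι 2) (ι 4))))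
  have s2_5 := hq (ix 3 (c4 (e H (ι 0) (ι 1) (ι 2)) (e H (ι 0) (ι 1) (ι 5)) (e H (ι 0) (ι 2) (ι 5)) (e H (ι 1) (ι 2) (ι 5)))) (ix 3 (c4 (e H (ι 0) (ι 1) (ι 3)) (e H (ι 0) (ι 1) (ι 4)) (e H (ι 0) (ι 3) (ι 4)) (e H (ι 1) (ι 3) (ι 4))))
  have s2_7 := hq (ix 5 (c4 (e H (ι 0) (ι 2) (ι 3)) (e H (ι 0) (ι 2) (ι 5)) (e H (ι 0) (ι 3) (ι 5)) (e H (ι 2) (ι 3) (ι 5)))) (ix 5 (c4 (e H (ι 0) (ι 1) (ι 3)) (e H (ι 0) (ι 1) (ι 4)) (e H (ι 0) (ι 3) (ι 4)) (e H (ι 1) (ι 3) (ι 4))))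
  have s2_8 := hq (ix 5 (c4 (e H (ι 1) (ι 2) (ι 3)) (e H (ι 1) (ι 2) (ι 5)) (e H (ι 1) (ι 3) (ι 5)) (e H (ι 2) (ι 3) (ι 5)))) (ix 6 (c4 (e H (ι 0) (ι 1) (ι 3)) (e H (ι 0) (ι 1) (ι 4)) (e H (ι 0) (ι 3) (ι 4)) (e H (ι 1) (ι 3) (ι 4))))
  have s2_10 := hq (ix 5 (c4 (e H (ι 0) (ι 2) (ι 4)) (e H (ι 0) (ι 2) (ι 5)) (e H (ι 0) (ι 4) (ι 5)) (e H (ι 2) (ι 4) (ι 5)))) (ix 9 (c4 (e H (ι 0) (ι 1) (ι 3)) (e H (ι 0) (ι 1) (ι 4)) (e H (ι 0) (ι 3) (ι 4)) (e H (ι 1) (ι 3) (ι 4))))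
  have s2_11 := hq (ix 5 (c4 (e H (ι 1) (ι 2) (ι 4)) (e H (ι 1) (ι 2) (ι 5)) (e H (ι 1) (ι 4) (ι 5)) (e H (ι 2) (ι 4) (ι 5)))) (ix 10 (c4 (e H (ι 0) (ι 1) (ι 3)) (e H (ι 0) (ι 1) (ι 4)) (e H (ι 0) (ι 3) (ι 4)) (e H (ι 1) (ι 3) (ι 4))))
  have s2_14 := hq (ix 6 (c4 (e H (ι 2) (ι 3) (ι 4)) (e H (ι 2) (ι 3) (ι 5)) (e H (ι 2) (ι 4) (ι 5)) (e H (ι 3) (ι 4) (ι 5)))) (ix 12 (c4 (e H (ι 0) (ι 1) (ι 3)) (e H (ι 0) (ι 1) (ι 4)) (e H (ι 0) (ι 3) (ι 4)) (e H (ι 1) (ι 3) (ι 4))))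
  have s3_5 := hq (ix 5 (c4 (e H (ι 0) (ι 1) (ι 2)) (e H (ι 0) (ι 1) (ι 5)) (e H (ι 0) (ι 2) (ι 5)) (e H (ι 1) (ι 2) (ι 5)))) (ix 3 (c4 (e H (ι 0) (ι 2) (ι 3)) (e H (ι 0) (ι 2) (ι 4)) (e H (ι 0) (ι 3) (ι 4)) (e H (ι 2) (ι 3) (ι 4))))
  have s3_6 := hq (ix 5 (c4 (e H (ι 0) (ι 1) (ι 3)) (e H (ι 0) (ι 1) (ι 5)) (e H (ι 0) (ι 3) (ι 5)) (e H (ι 1) (ι 3) (ι 5)))) (ix 5 (c4 (e H (ι 0) (ι 2) (ι 3)) (e H (ι 0) (ι 2) (ι 4)) (e H (ι 0) (ι 3) (ι 4)) (e H (ι 2) (ι 3) (ι 4))))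
  have s3_8 := hq (ix 6 (c4 (e H (ι 1) (ι 2) (ι 3)) (e H (ι 1) (ι 2) (ι 5)) (e H (ι 1) (ι 3) (ι 5)) (e H (ι 2) (ι 3) (ι 5)))) (ix 6 (c4 (e H (ι 0) (ι 2) (ι 3)) (e H (ι 0) (ι 2) (ι 4)) (e H (ι 0) (ι 3) (ι 4)) (e H (ι 2) (ι 3) (ι 4))))
  have s3_9 := hq (ix 5 (c4 (e H (ι 0) (ι 1) (ι 4)) (e H (ι 0) (ι 1) (ι 5)) (e H (ι 0) (ι 4) (ι 5)) (e H (ι 1) (ι 4) (ι 5)))) (ix 9 (c4 (e H (ι 0) (ι 2) (ι 3)) (e H (ι 0) (ι 2) (ι 4)) (e H (ι 0) (ι 3) (ι 4)) (e H (ι 2) (ι 3) (ι 4))))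
  have s3_11 := hq (ix 6 (c4 (e H (ι 1) (ι 2) (ι 4)) (e H (ι 1) (ι 2) (ι 5)) (e H (ι 1) (ι 4) (ι 5)) (e H (ι 2) (ι 4) (ι 5)))) (ix 10 (c4 (e H (ι 0) (ι 2) (ι 3)) (e H (ι 0) (ι 2) (ι 4)) (e H (ι 0) (ι 3) (ι 4)) (e H (ι 2) (ι 3) (ι 4))))
  have s3_13 := hq (ix 6 (c4 (e H (ι 1) (ι 3) (ι 4)) (e H (ι 1) (ι 3) (ι 5)) (e H (ι 1) (ι 4) (ι 5)) (e H (ι 3) (ι 4) (ι 5)))) (ix 12 (c4 (e H (ι 0) (ι 2) (ι 3)) (e H (ι 0) (ι 2) (ι 4)) (e H (ι 0) (ι 3) (ι 4)) (e H (ι 2) (ι 3) (ι 4))))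
  have s4_5 := hq (ix 6 (c4 (e H (ι 0) (ι 1) (ι 2)) (e H (ι 0) (ι 1) (ι 5)) (e H (ι 0) (ι 2) (ι 5)) (e H (ι 1) (ι 2) (ι 5)))) (ix 3 (c4 (e H (ι 1) (ι 2) (ι 3)) (e H (ι 1) (ι 2) (ι 4)) (e H (ι 1) (ι 3) (ι 4)) (e H (ι 2) (ι 3) (ι 4))))
  have s4_6 := hq (ix 6 (c4 (e H (ι 0) (ι 1) (ι 3)) (e H (ι 0) (ι 1) (ι 5)) (e H (ι 0) (ι 3) (ι 5)) (e H (ι 1) (ι 3) (ι 5)))) (ix 5 (c4 (e H (ι 1) (ι 2) (ι 3)) (e H (ι 1) (ι 2) (ι 4)) (e H (ι 1) (ι 3) (ι 4)) (e H (ι 2) (ι 3) (ι 4))))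
  have s4_7 := hq (ix 6 (c4 (e H (ι 0) (ι 2) (ι 3)) (e H (ι 0) (ι 2) (ι 5)) (e H (ι 0) (ι 3) (ι 5)) (e H (ι 2) (ι 3) (ι 5)))) (ix 6 (c4 (e H (ι 1) (ι 2) (ι 3)) (e H (ι 1) (ι 2) (ι 4)) (e H (ι 1) (ι 3) (ι 4)) (e H (ι 2) (ι 3) (ι 4))))
  have s4_9 := hq (ix 6 (c4 (e H (ι 0) (ι 1) (ι 4)) (e H (ι 0) (ι 1) (ι 5)) (e H (ι 0) (ι 4) (ι 5)) (e H (ι 1) (ι 4) (ι 5)))) (ix 9 (c4 (e H (ι 1) (ι 2) (ι 3)) (e H (ι 1) (ι 2) (ι 4)) (e H (ι 1) (ι 3) (ι 4)) (e H (ι 2) (ι 3) (ι 4))))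
  have s4_10 := hq (ix 6 (c4 (e H (ι 0) (ι 2) (ι 4)) (e H (ι 0) (ι 2) (ι 5)) (e H (ι 0) (ι 4) (ι 5)) (e H (ι 2) (ι 4) (ι 5)))) (ix 10 (c4 (e H (ι 1) (ι 2) (ι 3)) (e H (ι 1) (ι 2) (ι 4)) (e H (ι 1) (ι 3) (ι 4)) (e H (ι 2) (ι 3) (ι 4))))
  have s4_12 := hq (ix 6 (c4 (e H (ι 0) (ι 3) (ι 4)) (e H (ι 0) (ι 3) (ι 5)) (e H (ι 0) (ι 4) (ι 5)) (e H (ι 3) (ι 4) (ι 5)))) (ix 12 (c4 (e H (ι 1) (ι 2) (ι 3)) (e H (ι 1) (ι 2) (ι 4)) (e H (ι 1) (ι 3) (ι 4)) (e H (ι 2) (ι 3) (ι 4))))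
  have s5_12 := hq (ix 9 (c4 (e H (ι 0) (ι 3) (ι 4)) (e H (ι 0) (ι 3) (ι 5)) (e H (ι 0) (ι 4) (ι 5)) (e H (ι 3) (ι 4) (ι 5)))) (ix 9 (c4 (e H (ι 0) (ι 1) (ι 2)) (e H (ι 0) (ι 1) (ι 5)) (e H (ι 0) (ι 2) (ι 5)) (e H (ι 1) (ι 2) (ι 5))))
  have s5_13 := hq (ix 9 (c4 (e H (ι 1) (ι 3) (ι 4)) (e H (ι 1) (ι 3) (ι 5)) (e H (ι 1) (ι 4) (ι 5)) (e H (ι 3) (ι 4) (ι 5)))) (ix 10 (c4 (e H (ι 0) (ι 1) (ι 2)) (e H (ι 0) (ι 1) (ι 5)) (e H (ι 0) (ι 2) (ι 5)) (e H (ι 1) (ι 2) (ι 5))))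
  have s5_14 := hq (ix 9 (c4 (e H (ι 2) (ι 3) (ι 4)) (e H (ι 2) (ι 3) (ι 5)) (e H (ι 2) (ι 4) (ι 5)) (e H (ι 3) (ι 4) (ι 5)))) (ix 12 (c4 (e H (ι 0) (ι 1) (ι 2)) (e H (ι 0) (ι 1) (ι 5)) (e H (ι 0) (ι 2) (ι 5)) (e H (ι 1) (ι 2) (ι 5))))
  have s6_10 := hq (ix 9 (c4 (e H (ι 0) (ι 2) (ι 4)) (e H (ι 0) (ι 2) (ι 5)) (e H (ι 0) (ι 4) (ι 5)) (e H (ι 2) (ι 4) (ι 5)))) (ix 9 (c4 (e H (ι 0) (ι 1) (ι 3)) (e H (ι 0) (ι 1) (ι 5)) (e H (ι 0) (ι 3) (ι 5)) (e H (ι 1) (ι 3) (ι 5))))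
  have s6_11 := hq (ix 9 (c4 (e H (ι 1) (ι 2) (ι 4)) (e H (ι 1) (ι 2) (ι 5)) (e H (ι 1) (ι 4) (ι 5)) (e H (ι 2) (ι 4) (ι 5)))) (ix 10 (c4 (e H (ι 0) (ι 1) (ι 3)) (e H (ι 0) (ι 1) (ι 5)) (e H (ι 0) (ι 3) (ι 5)) (e H (ι 1) (ι 3) (ι 5))))
  have s6_14 := hq (ix 10 (c4 (e H (ι 2) (ι 3) (ι 4)) (e H (ι 2) (ι 3) (ι 5)) (e H (ι 2) (ι 4) (ι 5)) (e H (ι 3) (ι 4) (ι 5)))) (ix 12 (c4 (e H (ι 0) (ι 1) (ι 3)) (e H (ι 0) (ι 1) (ι 5)) (e H (ι 0) (ι 3) (ι 5)) (e H (ι 1) (ι 3) (ι 5))))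
  have s7_9 := hq (ix 9 (c4 (e H (ι 0) (ι 1) (ι 4)) (e H (ι 0) (ι 1) (ι 5)) (e H (ι 0) (ι 4) (ι 5)) (e H (ι 1) (ι 4) (ι 5)))) (ix 9 (c4 (e H (ι 0) (ι 2) (ι 3)) (e H (ι 0) (ι 2) (ι 5)) (e H (ι 0) (ι 3) (ι 5)) (e H (ι 2) (ι 3) (ι 5))))
  have s7_11 := hq (ix 10 (c4 (e H (ι 1) (ι 2) (ι 4)) (e H (ι 1) (ι 2) (ι 5)) (e H (ι 1) (ι 4) (ι 5)) (e H (ι 2) (ι 4) (ι 5)))) (ix 10 (c4 (e H (ι 0) (ι 2) (ι 3)) (e H (ι 0) (ι 2) (ι 5)) (e H (ι 0) (ι 3) (ι 5)) (e H (ι 2) (ι 3) (ι 5))))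
  have s7_13 := hq (ix 10 (c4 (e H (ι 1) (ι 3) (ι 4)) (e H (ι 1) (ι 3) (ι 5)) (e H (ι 1) (ι 4) (ι 5)) (e H (ι 3) (ι 4) (ι 5)))) (ix 12 (c4 (e H (ι 0) (ι 2) (ι 3)) (e H (ι 0) (ι 2) (ι 5)) (e H (ι 0) (ι 3) (ι 5)) (e H (ι 2) (ι 3) (ι 5))))
  have s8_9 := hq (ix 10 (c4 (e H (ι 0) (ι 1) (ι 4)) (e H (ι 0) (ι 1) (ι 5)) (e H (ι 0) (ι 4) (ι 5)) (e H (ι 1) (ι 4) (ι 5)))) (ix 9 (c4 (e H (ι 1) (ι 2) (ι 3)) (e H (ι 1) (ι 2) (ι 5)) (e H (ι 1) (ι 3) (ι 5)) (e H (ι 2) (ι 3) (ι 5))))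
  have s8_10 := hq (ix 10 (c4 (e H (ι 0) (ι 2) (ι 4)) (e H (ι 0) (ι 2) (ι 5)) (e H (ι 0) (ι 4) (ι 5)) (e H (ι 2) (ι 4) (ι 5)))) (ix 10 (c4 (e H (ι 1) (ι 2) (ι 3)) (e H (ι 1) (ι 2) (ι 5)) (e H (ι 1) (ι 3) (ι 5)) (e H (ι 2) (ι 3) (ι 5))))
  have s8_12 := hq (ix 10 (c4 (e H (ι 0) (ι 3) (ι 4)) (e H (ι 0) (ι 3) (ι 5)) (e H (ι 0) (ι 4) (ι 5)) (e H (ι 3) (ι 4) (ι 5)))) (ix 12 (c4 (e H (ι 1) (ι 2) (ι 3)) (e H (ι 1) (ι 2) (ι 5)) (e H (ι 1) (ι 3) (ι 5)) (e H (ι 2) (ι 3) (ι 5))))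
  have s9_14 := hq (ix 12 (c4 (e H (ι 2) (ι 3) (ι 4)) (e H (ι 2) (ι 3) (ι 5)) (e H (ι 2) (ι 4) (ι 5)) (e H (ι 3) (ι 4) (ι 5)))) (ix 12 (c4 (e H (ι 0) (ι 1) (ι 4)) (e H (ι 0) (ι 1) (ι 5)) (e H (ι 0) (ι 4) (ι 5)) (e H (ι 1) (ι 4) (ι 5))))
  have s10_13 := hq (ix 12 (c4 (e H (ι 1) (ι 3) (ι 4)) (e H (ι 1) (ι 3) (ι 5)) (e H (ι 1) (ι 4) (ι 5)) (e H (ι 3) (ι 4) (ι 5)))) (ix 12 (c4 (e H (ι 0) (ι 2) (ι 4)) (e H (ι 0) (ι 2) (ι 5)) (e H (ι 0) (ι 4) (ι 5)) (e H (ι 2) (ι 4) (ι 5))))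
  have s11_12 := hq (ix 12 (c4 (e H (ι 0) (ι 3) (ι 4)) (e H (ι 0) (ι 3) (ι 5)) (e H (ι 0) (ι 4) (ι 5)) (e H (ι 3) (ι 4) (ι 5)))) (ix 12 (c4 (e H (ι 1) (ι 2) (ι 4)) (e H (ι 1) (ι 2) (ι 5)) (e H (ι 1) (ι 4) (ι 5)) (e H (ι 2) (ι 4) (ι 5))))
  rw [s0_9, s0_10, s0_11, s0_12, s0_13, s0_14, s1_6, s1_7, s1_8, s1_12, s1_13, s1_14, s2_5, s2_7, s2_8, s2_10, s2_11, s2_14, s3_5, s3_6, s3_8, s3_9, s3_11, s3_13, s4_5, s4_6, s4_7, s4_9, s4_10, s4_12, s5_12, s5_13, s5_14, s6_10, s6_11, s6_14, s7_9, s7_11, s7_13, s8_9, s8_10, s8_12, s9_14, s10_13, s11_12]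
  unfold twoSum
  ring

end Pool.Agent.Helper3.OP
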